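import Pool.Agent.H13.RE.Factor

/-!
# Cycles of binary forms, and rational equivalences along a rational curve
-/

set_option autoImplicit false

namespace Pool.Agent.H13.RE

open MvPolynomial

universe u

section cyc

variable {K : Type u} [Field K] {n : ℕ} {x : Fin (n + 1) → MvPolynomial (Fin 2) K}

lemma isCyc_C {c : K} (hc : c ≠ 0) : IsCyc (C c) x 0 := by
  refine ⟨0, fun i => i.elim0, c, fun i => i.elim0, hc, fun i => i.elim0, ?_, ?_⟩
  · rw [Finset.univ_eq_empty, Finset.prod_empty, mul_one]
  · rw [Finset.univ_eq_empty, Finset.sum_empty]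

lemma isCyc_X0 {v : Fin (n + 1) → K} (hv : v ≠ 0) (h : ∀ j, eval ![0, 1] (x j) = v j) :
    IsCyc (X 0) x (Finsupp.single (Projectivization.mk K v hv) 1) := by
  have h' : (fun j => eval ![0, 1] (x j)) = v := funext h
  refine ⟨1, fun _ => ![0, 1], 1, fun _ => by rw [h']; exact hv, one_ne_zero, fun _ hc => ?_, ?_, ?_⟩
  · have := congrFun hc 1
    simp at this
  · simp
  · rw [Fin.sum_univ_one]
    congr 1
    exact ((Projectivization.mk_eq_mk_iff' K _ _ _ hv).mpr ⟨1, by rw [one_smul, h']⟩).symm

lemma isCyc_X1 {v : Fin (n + 1) → K} (hv : v ≠ 0) (h : ∀ j, eval ![1, 0] (x j) = v j) :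
    IsCyc (X 1) x (Finsupp.single (Projectivization.mk K v hv) 1) := by
  have h' : (fun j => eval ![1, 0] (x j)) = v := funext h
  refine ⟨1, fun _ => ![1, 0], -1, fun _ => by rw [h']; exact hv, neg_ne_zero.mpr one_ne_zero,
    fun _ hc => ?_, ?_, ?_⟩
  · have := congrFun hc 0
    simp at this
  · simp
  · rw [Fin.sum_univ_one]
    congr 1
    exact ((Projectivization.mk_eq_mk_iff' K _ _ _ hv).mpr ⟨1, by rw [one_smul, h']⟩).symm

lemma isCyc_mul {g g' : MvPolynomial (Fin 2) K} {z z' : PP K n →₀ ℤ} (h : IsCyc g x z)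
    (h' : IsCyc g' x z') : IsCyc (g * g') x (z + z') := by
  obtain ⟨m, ρ, c, hx, hc, hρ, hg, hz⟩ := h
  obtain ⟨m', ρ', c', hx', hc', hρ', hg', hz'⟩ := h'
  have key : ∀ {φ : (Fin 2 → K) → Prop}, (∀ i, φ (ρ i)) → (∀ i, φ (ρ' i)) →
      ∀ i, φ (Fin.append ρ ρ' i) := by
    intro φ h1 h2 i
    refine Fin.addCases (fun i => ?_) (fun i => ?_) i
    · rw [Fin.append_left]
      exact h1 i
    · rw [Fin.append_right]
      exact h2 i
  refine ⟨m + m', Fin.append ρ ρ', c * c',
    key (φ := fun r => (fun j => eval r (x j)) ≠ 0) hx hx', mul_ne_zero hc hc',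
    key (φ := fun r => r ≠ 0) hρ hρ', ?_, ?_⟩
  · rw [Fin.prod_univ_add]
    simp only [Fin.append_left, Fin.append_right]
    rw [hg, hg', map_mul]
    ring
  · rw [Fin.sum_univ_add, hz, hz']
    congr 1
    · refine Finset.sum_congr rfl fun i _ => ?_
      congr 1
      refine (Projectivization.mk_eq_mk_iff' K _ _ _ _).mpr ⟨1, ?_⟩
      rw [one_smul, Fin.append_left]
    · refine Finset.sum_congr rfl fun i _ => ?_
      congr 1
      refine (Projectivization.mk_eq_mk_iff' K _ _ _ _).mpr ⟨1, ?_⟩
      rw [one_smul, Fin.append_right]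

lemma isCyc_pow {g : MvPolynomial (Fin 2) K} {z : PP K n →₀ ℤ} (h : IsCyc g x z) :
    ∀ m : ℕ, IsCyc (g ^ m) x (m • z) := by
  intro m
  induction m with
  | zero =>
    rw [pow_zero, zero_smul]
    have := isCyc_C (x := x) (one_ne_zero (α := K))
    rwa [map_one] at this
  | succ m ih =>
    rw [pow_succ, succ_nsmul]
    exact isCyc_mul ih h

end cyc

section lines

variable {k : Type u} [Field k] {n r : ℕ} (f : Fin r → MvPolynomial (Fin (n + 1)) k)
  (E : IntermediateField k (AlgebraicClosure k)) [hE : FiniteDimensional k E]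

/-- a rational equivalence along a rational curve -/
lemma gen_line {e : ℕ} {x : Fin (n + 1) → MvPolynomial (Fin 2) E}
    (hx : ∀ j, (x j).IsHomogeneous e) (hf : ∀ i, aeval x (f i) = 0)
    {m : ℕ} {g0 g1 : MvPolynomial (Fin 2) E} (hg0 : g0.IsHomogeneous m)
    (hg1 : g1.IsHomogeneous m)
    {z0 z1 : (E →ₐ[k] AlgebraicClosure k) → (PP (AlgebraicClosure k) n →₀ ℤ)}
    (h0 : ∀ σ, IsCyc (MvPolynomial.map σ.toRingHom g0)
      (fun j => MvPolynomial.map σ.toRingHom (x j)) (z0 σ))
    (h1 : ∀ σ, IsCyc (MvPolynomial.map σ.toRingHom g1)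
      (fun j => MvPolynomial.map σ.toRingHom (x j)) (z1 σ)) :
    ∑ σ, (z0 σ - z1 σ) ∈ Rat f := by
  have hs : ∀ (σ : E →ₐ[k] AlgebraicClosure k) (τ : E) (q : MvPolynomial (Fin 2) E),
      spec σ.toRingHom τ (MvPolynomial.map Polynomial.C q) = MvPolynomial.map σ.toRingHom q := by
    intro σ τ q
    unfold spec
    rw [MvPolynomial.map_map]
    have hcomp : (σ.toRingHom.comp (Polynomial.evalRingHom τ)).comp Polynomial.C =
        σ.toRingHom := RingHom.ext fun a => by simp
    rw [hcomp]
  have hsC : ∀ (σ : E →ₐ[k] AlgebraicClosure k) (τ : E) (q : Polynomial E),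
      spec σ.toRingHom τ (C q) = C (σ.toRingHom (q.eval τ)) := by
    intro σ τ q
    unfold spec
    rw [MvPolynomial.map_C]
    rfl
  apply AddSubgroup.subset_closure
  refine ⟨E, hE, e, m, C (1 - Polynomial.X) * MvPolynomial.map Polynomial.C g0 +
    C Polynomial.X * MvPolynomial.map Polynomial.C g1, fun j => MvPolynomial.map Polynomial.C (x j),
    z0, z1, ?_, fun j => (hx j).map _, fun i => ?_, fun σ => ?_, fun σ => ?_, rfl⟩
  · apply IsHomogeneous.add
    · have := (isHomogeneous_C (Fin 2) (1 - Polynomial.X : Polynomial E)).mul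
        (hg0.map (Polynomial.C : E →+* Polynomial E))
      rwa [zero_add] at this
    · have := (isHomogeneous_C (Fin 2) (Polynomial.X : Polynomial E)).mul
        (hg1.map (Polynomial.C : E →+* Polynomial E))
      rwa [zero_add] at this
  · have : aeval (fun j => MvPolynomial.map Polynomial.C (x j)) (f i) =
        MvPolynomial.map (Polynomial.C : E →+* Polynomial E) (aeval x (f i)) := by
      rw [MvPolynomial.map_aeval]
      rw [MvPolynomial.aeval_def]
      congr 1
      refine RingHom.ext fun a => ?_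
      rw [RingHom.comp_apply, MvPolynomial.algebraMap_apply, MvPolynomial.algebraMap_apply,
        MvPolynomial.map_C, Polynomial.algebraMap_apply]
    rw [this, hf i, map_zero]
    exact dvd_zero _
  · have e0 := h0 σ
    have : spec σ.toRingHom 0 (C (1 - Polynomial.X) * MvPolynomial.map Polynomial.C g0 +
        C Polynomial.X * MvPolynomial.map Polynomial.C g1) = MvPolynomial.map σ.toRingHom g0 := by
      have e1 : spec σ.toRingHom 0 (C (1 - Polynomial.X) * MvPolynomial.map Polynomial.C g0 +
        C Polynomial.X * MvPolynomial.map Polynomial.C g1) =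
        spec σ.toRingHom 0 (C (1 - Polynomial.X)) *
          spec σ.toRingHom 0 (MvPolynomial.map Polynomial.C g0) +
        spec σ.toRingHom 0 (C Polynomial.X) *
          spec σ.toRingHom 0 (MvPolynomial.map Polynomial.C g1) := by
        unfold spec
        rw [map_add, map_mul, map_mul]
      rw [e1, hsC, hsC, hs, hs]
      simp
    rw [this]
    simp only [hs]
    exact e0
  · have e0 := h1 σ
    have : spec σ.toRingHom 1 (C (1 - Polynomial.X) * MvPolynomial.map Polynomial.C g0 +
        C Polynomial.X * MvPolynomial.map Polynomial.C g1) = MvPolynomial.map σ.toRingHom g1 := by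
      have e1 : spec σ.toRingHom 1 (C (1 - Polynomial.X) * MvPolynomial.map Polynomial.C g0 +
        C Polynomial.X * MvPolynomial.map Polynomial.C g1) =
        spec σ.toRingHom 1 (C (1 - Polynomial.X)) *
          spec σ.toRingHom 1 (MvPolynomial.map Polynomial.C g0) +
        spec σ.toRingHom 1 (C Polynomial.X) *
          spec σ.toRingHom 1 (MvPolynomial.map Polynomial.C g1) := by
        unfold spec
        rw [map_add, map_mul, map_mul]
      rw [e1, hsC, hsC, hs, hs]
      simp
    rw [this]
    simp only [hs]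
    exact e0

end lines

end Pool.Agent.H13.RE
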