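import Pool.Agent.H13.RE.Systems

/-!
# Zero-cycles and rational equivalence: definitions
-/

set_option autoImplicit false

namespace Pool.Agent.H13.RE

open MvPolynomial

universe u

/-- projective space over the field `K` -/
abbrev PP (K : Type u) [Field K] (n : ℕ) := Projectivization K (Fin (n + 1) → K)

/-- `z` is the zero-cycle `∑ [x(ρ_i)]`, where `g = c ∏ (ρ_i1 U - ρ_i0 V)` is a nonzero binary form
with zeros `ρ_i = (ρ_i0 : ρ_i1)` on the projective line (with multiplicity), and `x` is a vector of
binary forms, not zero at the `ρ_i`. -/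
def IsCyc {K : Type u} [Field K] {n : ℕ} (g : MvPolynomial (Fin 2) K)
    (x : Fin (n + 1) → MvPolynomial (Fin 2) K) (z : PP K n →₀ ℤ) : Prop :=
  ∃ (m : ℕ) (ρ : Fin m → Fin 2 → K) (c : K) (hx : ∀ i, (fun j => eval (ρ i) (x j)) ≠ 0),
    c ≠ 0 ∧ (∀ i, ρ i ≠ 0) ∧
    g = C c * ∏ i, (C (ρ i 1) * X 0 - C (ρ i 0) * X 1) ∧
    z = ∑ i, Finsupp.single (Projectivization.mk K _ (hx i)) 1

/-- Specialisation `T = τ` of the coefficients, followed by the field embedding `σ`. -/
noncomputable def spec {E K : Type u} [Field E] [Field K] (σ : E →+* K) (τ : E)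
    (g : MvPolynomial (Fin 2) (Polynomial E)) : MvPolynomial (Fin 2) K :=
  MvPolynomial.map (σ.comp (Polynomial.evalRingHom τ)) g

/-- An elementary rational equivalence on the projective scheme `X` over `k` defined by the forms
`f i`: over a finite extension `E` of `k` (inside the algebraic closure `K`) there are a
polynomial `g(T; U, V)`, homogeneous in `U, V`, and polynomials `x_j(T; U, V)`, homogeneous in
`U, V` of the same degree, such that `g` divides all `f i (x)` (so that `x` maps the curve `g = 0`
in the product of the `T`-line and the projective line to `X`), and `z` is the push-forward to `k`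
(sum over all embeddings `σ` of `E` into `K`) of the difference of the images of the fibres of the
curve `g = 0` over `T = 0` and `T = 1`. -/
def IsGen {k : Type u} [Field k] {n r : ℕ} (f : Fin r → MvPolynomial (Fin (n + 1)) k)
    (z : PP (AlgebraicClosure k) n →₀ ℤ) : Prop :=
  ∃ (E : IntermediateField k (AlgebraicClosure k)) (_ : FiniteDimensional k E) (e m : ℕ)
    (g : MvPolynomial (Fin 2) (Polynomial E))
    (x : Fin (n + 1) → MvPolynomial (Fin 2) (Polynomial E))
    (z0 z1 : (E →ₐ[k] AlgebraicClosure k) → (PP (AlgebraicClosure k) n →₀ ℤ)),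
    g.IsHomogeneous m ∧ (∀ j, (x j).IsHomogeneous e) ∧ (∀ i, g ∣ aeval x (f i)) ∧
    (∀ σ, IsCyc (spec σ.toRingHom 0 g) (fun j => spec σ.toRingHom 0 (x j)) (z0 σ)) ∧
    (∀ σ, IsCyc (spec σ.toRingHom 1 g) (fun j => spec σ.toRingHom 1 (x j)) (z1 σ)) ∧
    z = ∑ σ, (z0 σ - z1 σ)

/-- The group generated by the elementary rational equivalences. -/
noncomputable def Rat {k : Type u} [Field k] {n r : ℕ}
    (f : Fin r → MvPolynomial (Fin (n + 1)) k) :
    AddSubgroup (PP (AlgebraicClosure k) n →₀ ℤ) :=
  AddSubgroup.closure {z | IsGen f z}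

/-- The push-forward to `k` of the point with coordinates `P` in the finite extension `E` of `k`:
the sum of the conjugates `[σ P]` over all embeddings `σ` of `E` into the algebraic closure. -/
noncomputable def pt {k : Type u} [Field k] {n : ℕ}
    (E : IntermediateField k (AlgebraicClosure k)) [FiniteDimensional k E] (P : Fin (n + 1) → E)
    (hP : P ≠ 0) : PP (AlgebraicClosure k) n →₀ ℤ :=
  ∑ σ : E →ₐ[k] AlgebraicClosure k,
    Finsupp.single (Projectivization.mk (AlgebraicClosure k) (fun j => σ (P j))
      (fun h => hP (funext fun j => σ.toRingHom.injective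
        ((congrFun h j).trans (map_zero σ).symm)))) 1

/-- The zero-cycles of the projective scheme `X` over `k` defined by the forms `f i`: the group
generated by the push-forwards of the points of `X` with coordinates in finite extensions. -/
noncomputable def Cycles {k : Type u} [Field k] {n r : ℕ}
    (f : Fin r → MvPolynomial (Fin (n + 1)) k) :
    AddSubgroup (PP (AlgebraicClosure k) n →₀ ℤ) :=
  AddSubgroup.closure {z | ∃ (E : IntermediateField k (AlgebraicClosure k))
    (_ : FiniteDimensional k E) (P : Fin (n + 1) → E) (hP : P ≠ 0),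
    (∀ i, aeval P (f i) = 0) ∧ z = pt E P hP}

end Pool.Agent.H13.RE
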