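import Pool.Agent.H13.RE.CycleDefs

/-!
# Factorisation of binary forms over an algebraically closed field
-/

set_option autoImplicit false

namespace Pool.Agent.H13.RE

open MvPolynomial

universe u

variable {K : Type u} [Field K]

/-- dehomogenisation -/
noncomputable def dehom (f : MvPolynomial (Fin 2) K) : Polynomial K :=
  aeval ![Polynomial.X, 1] f

lemma natDegree_dehom {f : MvPolynomial (Fin 2) K} {m : ℕ} (hf : f.IsHomogeneous m) :
    (dehom f).natDegree ≤ m := by
  unfold dehom
  rw [f.as_sum, map_sum]
  apply Polynomial.natDegree_sum_le_of_forall_le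
  intro s hs
  have hs' : s.degree = m := by
    rw [mem_support_iff] at hs
    have := hf hs
    rw [Finsupp.degree_eq_weight_one]
    exact this
  have h0 : s 0 ≤ m := by
    rw [← hs']
    exact Finsupp.le_degree 0 s
  rw [aeval_monomial]
  refine le_trans (Polynomial.natDegree_C_mul_le _ _) ?_
  rw [Finsupp.prod_fintype _ _ (by intro i; simp), Fin.prod_univ_two]
  simp only [Matrix.cons_val_zero, Matrix.cons_val_one, one_pow, mul_one]
  rw [Polynomial.natDegree_X_pow]
  exact h0

lemma homogenize_dehom {f : MvPolynomial (Fin 2) K} {m : ℕ} (hf : f.IsHomogeneous m) :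
    (dehom f).homogenize m = f :=
  Polynomial.homogenize_eq_of_isHomogeneous hf rfl

theorem exists_factor [IsAlgClosed K] : ∀ (m : ℕ) (f : MvPolynomial (Fin 2) K),
    f.IsHomogeneous m → f ≠ 0 → ∃ (ρ : Fin m → Fin 2 → K) (c : K), c ≠ 0 ∧ (∀ i, ρ i ≠ 0) ∧
      f = C c * ∏ i, (C (ρ i 1) * X 0 - C (ρ i 0) * X 1) := by
  intro m
  induction m with
  | zero =>
    intro f hf h0
    have h1 := totalDegree_eq_zero_iff_eq_C.mp (Nat.le_zero.mp hf.totalDegree_le)
    refine ⟨fun i => i.elim0, coeff 0 f, ?_, fun i => i.elim0, ?_⟩
    · intro hc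
      rw [hc, map_zero] at h1
      exact h0 h1
    · rw [Finset.univ_eq_empty, Finset.prod_empty, mul_one]
      exact h1
  | succ m ih =>
    intro f hf h0
    have hdeg := natDegree_dehom hf
    have hhom := homogenize_dehom hf
    obtain ⟨p, hp⟩ : ∃ p, p = dehom f := ⟨_, rfl⟩
    rw [← hp] at hdeg hhom
    rcases Nat.lt_or_ge p.natDegree (m + 1) with h | h
    · have e1 : p.homogenize (m + 1) = p.homogenize m * (1 : Polynomial K).homogenize 1 := by
        rw [← Polynomial.homogenize_mul p 1 (by omega) (by simp), mul_one]
      rw [hhom, Polynomial.homogenize_one, pow_one] at e1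
      have h2 : p.homogenize m ≠ 0 := by
        intro hc
        rw [hc, zero_mul] at e1
        exact h0 e1
      obtain ⟨ρ, c, hc, hρ, hfac⟩ := ih _ (Polynomial.isHomogeneous_homogenize p) h2
      refine ⟨Fin.cons ![1, 0] ρ, -c, neg_ne_zero.mpr hc, ?_, ?_⟩
      · intro i
        refine Fin.cases ?_ (fun i => ?_) i
        · rw [Fin.cons_zero]
          intro h3
          have := congrFun h3 0
          simp at this
        · rw [Fin.cons_succ]
          exact hρ i
      · rw [e1, hfac, Fin.prod_univ_succ]
        simp only [Fin.cons_zero, Fin.cons_succ, Matrix.cons_val_zero, Matrix.cons_val_one,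
          map_zero, map_one, zero_mul, one_mul, zero_sub, map_neg]
        ring
    · have h3 : p.degree ≠ 0 := by
        intro hc
        have h4 : p.natDegree = 0 := Polynomial.natDegree_eq_of_degree_eq_some hc
        omega
      obtain ⟨a, ha⟩ := IsAlgClosed.exists_root p h3
      obtain ⟨q, hq⟩ := Polynomial.dvd_iff_isRoot.mpr ha
      have hp0 : p ≠ 0 := by
        rintro rfl
        rw [Polynomial.natDegree_zero] at h
        exact Nat.not_succ_le_zero m h
      have hq0 : q ≠ 0 := by
        rintro rfl
        rw [mul_zero] at hq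
        exact hp0 hq
      have hqd : q.natDegree ≤ m := by
        have := congrArg Polynomial.natDegree hq
        rw [Polynomial.natDegree_mul (Polynomial.X_sub_C_ne_zero a) hq0,
          Polynomial.natDegree_X_sub_C] at this
        omega
      have e1 : p.homogenize (m + 1) =
          q.homogenize m * (Polynomial.X - Polynomial.C a).homogenize 1 := by
        rw [← Polynomial.homogenize_mul q _ hqd (by rw [Polynomial.natDegree_X_sub_C]), mul_comm q,
          ← hq]
      rw [hhom, Polynomial.homogenize_sub, Polynomial.homogenize_X one_ne_zero,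
        Polynomial.homogenize_C] at e1
      have h2 : q.homogenize m ≠ 0 := by
        intro hc
        rw [hc, zero_mul] at e1
        exact h0 e1
      obtain ⟨ρ, c, hc, hρ, hfac⟩ := ih _ (Polynomial.isHomogeneous_homogenize q) h2
      refine ⟨Fin.cons ![a, 1] ρ, c, hc, ?_, ?_⟩
      · intro i
        refine Fin.cases ?_ (fun i => ?_) i
        · rw [Fin.cons_zero]
          intro h3
          have := congrFun h3 1
          simp at this
        · rw [Fin.cons_succ]
          exact hρ i
      · rw [e1, hfac, Fin.prod_univ_succ]
        simp only [Fin.cons_zero, Fin.cons_succ, Matrix.cons_val_zero, Matrix.cons_val_one,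
          map_one, one_mul, Nat.sub_self, pow_zero, mul_one, pow_one]
        ring

end Pool.Agent.H13.RE
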