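import Pool.Agent.H13.RE.Link

/-!
# Linking a point with a residual point
-/

set_option autoImplicit false

namespace Pool.Agent.H13.RE

open MvPolynomial

universe u

variable {k : Type u} [Field k] {N : ℕ}

lemma eval_aeval (v : Fin N → Polynomial k) (f : MvPolynomial (Fin N) k) (t : k) :
    (aeval v f).eval t = eval (fun j => (v j).eval t) f := by
  have h : (aeval v f).eval t = (Polynomial.aeval t).comp (aeval v : _ →ₐ[k] _) f := by
    simp [Polynomial.aeval_def]
  rw [h]
  have h2 : (Polynomial.aeval t).comp (aeval v : MvPolynomial (Fin N) k →ₐ[k] Polynomial k) =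
      aeval (fun j => (v j).eval t) := by
    apply MvPolynomial.algHom_ext
    intro i
    simp [Polynomial.aeval_def]
  rw [h2, aeval_eq_eval]

lemma link_const {S : Sys k N} {x : Fin N → k} (hx : ∀ p ∈ S, eval x p.2 = 0) {a b : k}
    (ha : a ≠ 0) (hb : b ≠ 0) : Link S (a • x) (b • x) := by
  refine ⟨emb x, fun p hp => ?_, ⟨a⁻¹, inv_ne_zero ha, ?_⟩, ⟨b⁻¹, inv_ne_zero hb, ?_⟩⟩
  · rw [aeval_emb, hx p hp, map_zero]
  · rw [smul_smul, inv_mul_cancel₀ ha, one_smul]
    funext j
    simp [emb]
  · rw [smul_smul, inv_mul_cancel₀ hb, one_smul]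
    funext j
    simp [emb]

lemma comb_eval (P : Fin N → k) (a b : Polynomial k) (v : Fin N → Polynomial k) (t : k) :
    (fun j => (comb P a b v j).eval t) = a.eval t • P + b.eval t • (fun j => (v j).eval t) := by
  funext j
  simp [comb]

lemma emb_eval (x : Fin N → k) (t : k) : (fun j => (emb x j).eval t) = x := by
  funext j
  simp [emb]

theorem stepB (hS : C1Sys k) {n : ℕ} {L0 : Sys k (n + 1)} (hL0 : Ok L0) {d : ℕ} (hd : 2 ≤ d)
    {G : MvPolynomial (Fin (n + 1)) k} (hG : G.IsHomogeneous d) {P R : Fin (n + 1) → k}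
    (hP0 : P ≠ 0) (hP : ∀ p ∈ L0, eval P p.2 = 0) (hPG : eval P G = 0)
    (hR : ∀ p ∈ L0, ∀ i < p.1, eval R (pol p.2 p.1 P (i + 1)) = 0) (hRG : eval R G = 0)
    (hRi : ∀ i < d - 2, eval R (pol G d P (i + 1)) = 0)
    (hn : (L0.map (fun p => (p.1 + 2).choose 3)).sum + d.choose 3 + (d - 1) + 1 < n + 1) :
    ∃ Z : Fin (n + 1) → k, IsPt (L0 ++ [(d, G)]) Z ∧ Link (L0 ++ [(d, G)]) Z R ∧
      Link (L0 ++ [(d, G)]) Z P := by
  have hmem : ∀ {φ : ℕ × MvPolynomial (Fin (n + 1)) k → Prop}, (∀ p ∈ L0, φ p) → φ (d, G) →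
      ∀ p ∈ L0 ++ [(d, G)], φ p := by
    intro φ h1 h2 p hp
    rcases List.mem_append.mp hp with h | h
    · exact h1 p h
    · rw [List.mem_singleton] at h
      rw [h]
      exact h2
  have hPS : ∀ p ∈ L0 ++ [(d, G)], eval P p.2 = 0 := hmem hP hPG
  have hcast : ∀ i, i < d → (i < d - 2) ∨ i + 1 = d - 1 ∨ i + 1 = d := by
    intro i hi
    omega
  by_cases hg : eval R (pol G d P (d - 1)) = 0
  · refine ⟨P, ⟨hP0, hPS⟩, ?_, ?_⟩
    · refine ⟨comb P (1 - Polynomial.X) Polynomial.X (emb R), ?_, ⟨1, one_ne_zero, ?_⟩,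
        ⟨1, one_ne_zero, ?_⟩⟩
      · apply hmem
        · intro p hp
          apply comb_all_zero (hL0 p hp).2 (hP p hp)
          intro i hi
          rw [aeval_emb, hR p hp i hi, map_zero]
        · apply comb_all_zero hG hPG
          intro i hi
          rcases hcast i hi with h | h | h
          · rw [aeval_emb, hRi i h, map_zero]
          · rw [h, aeval_emb, hg, map_zero]
          · rw [h, aeval_emb, pol_top hG, hRG, map_zero]
      · rw [comb_eval, emb_eval]
        simp
      · rw [comb_eval, emb_eval]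
        simp
    · have := link_const hPS (one_ne_zero) (one_ne_zero)
      simpa using this
  · obtain ⟨j0, hj0⟩ : ∃ j, P j ≠ 0 := by
      by_contra hcon
      push Not at hcon
      exact hP0 (funext hcon)
    -- the second point
    obtain ⟨w, hw0, hw⟩ := hS.list (L0.flatMap (fun p => polpolL p.2 p.1 P R p.1) ++
        polpolL G d P R (d - 2) ++ [(d - 1, pol G d P (d - 1))] ++ [(1, X j0)]) (by
      apply ok_append
      · apply ok_append
        · apply ok_append
          · exact ok_flatMap fun p hp => ok_polpolL (hL0 p hp).2 P R p.1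
          · exact ok_polpolL hG P R (d - 2)
        · exact ok_singleton (show 1 ≤ d - 1 by omega) (pol_hom hG P (d - 1))
      · exact ok_singleton le_rfl (isHomogeneous_X k j0)) (by
      rw [cost_append, cost_append, cost_append, cost_flatMap, cost_polpolL, cost_singleton,
        cost_singleton]
      simp only [cost_polpolL]
      rw [show d - 2 + 2 = d by omega]
      exact hn)
    have hw1 : ∀ p ∈ L0, ∀ i < p.1, ∀ l < i + 1,
        eval w (pol (pol p.2 p.1 P (i + 1)) (i + 1) R (l + 1)) = 0 := by
      intro p hp i hi l hl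
      apply hw (l + 1, _)
      apply List.mem_append_left
      apply List.mem_append_left
      apply List.mem_append_left
      exact List.mem_flatMap.mpr ⟨p, hp, mem_polpolL hi hl⟩
    have hw2 : ∀ i < d - 2, ∀ l < i + 1,
        eval w (pol (pol G d P (i + 1)) (i + 1) R (l + 1)) = 0 := by
      intro i hi l hl
      apply hw (l + 1, _)
      apply List.mem_append_left
      apply List.mem_append_left
      apply List.mem_append_right
      exact mem_polpolL hi hl
    have hw3 : eval w (pol G d P (d - 1)) = 0 := by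
      apply hw (d - 1, _)
      apply List.mem_append_left
      apply List.mem_append_right
      exact List.mem_singleton.mpr rfl
    have hw4 : w j0 = 0 := by
      have := hw (1, X j0) (List.mem_append_right _ (List.mem_singleton.mpr rfl))
      simpa using this
    -- the line from `w` to `R`
    obtain ⟨v, hv⟩ : ∃ v, v = comb R Polynomial.X (1 - Polynomial.X) (emb w) := ⟨_, rfl⟩
    have hv0 : (fun j => (v j).eval 0) = w := by
      rw [hv, comb_eval, emb_eval]
      simp
    have hv1 : (fun j => (v j).eval 1) = R := by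
      rw [hv, comb_eval, emb_eval]
      simp
    have hA : ∀ p ∈ L0, ∀ i < p.1, aeval v (pol p.2 p.1 P (i + 1)) = 0 := by
      intro p hp i hi
      rw [hv]
      apply comb_all_zero (pol_hom (hL0 p hp).2 P (i + 1)) (hR p hp i hi)
      intro l hl
      rw [aeval_emb, hw1 p hp i hi l hl, map_zero]
    have hB : ∀ i < d - 2, aeval v (pol G d P (i + 1)) = 0 := by
      intro i hi
      rw [hv]
      apply comb_all_zero (pol_hom hG P (i + 1)) (hRi i hi)
      intro l hl
      rw [aeval_emb, hw2 i hi l hl, map_zero]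
    have hwA : ∀ p ∈ L0, ∀ i < p.1, eval w (pol p.2 p.1 P (i + 1)) = 0 := by
      intro p hp i hi
      have := eval_aeval v (pol p.2 p.1 P (i + 1)) 0
      rw [hA p hp i hi, hv0, Polynomial.eval_zero] at this
      exact this.symm
    have hwB : ∀ i < d - 2, eval w (pol G d P (i + 1)) = 0 := by
      intro i hi
      have := eval_aeval v (pol G d P (i + 1)) 0
      rw [hB i hi, hv0, Polynomial.eval_zero] at this
      exact this.symm
    obtain ⟨h, hh⟩ : ∃ h, h = aeval v (pol G d P (d - 1)) := ⟨_, rfl⟩
    obtain ⟨Γ, hΓ⟩ : ∃ Γ, Γ = aeval v G := ⟨_, rfl⟩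
    have hh1 : h.eval 1 = eval R (pol G d P (d - 1)) := by
      rw [hh, eval_aeval, hv1]
    have hh0 : h.eval 0 = 0 := by
      rw [hh, eval_aeval, hv0, hw3]
    have hΓ1 : Γ.eval 1 = 0 := by
      rw [hΓ, eval_aeval, hv1, hRG]
    have hΓ0 : Γ.eval 0 = eval w G := by
      rw [hΓ, eval_aeval, hv0]
    have hne : h ≠ 0 := by
      rintro rfl
      rw [Polynomial.eval_zero] at hh1
      exact hg hh1.symm
    obtain ⟨j, h', Γ', e1, e2, e3⟩ := common_power h.natDegree h Γ hne le_rfl
    have hh'1 : h'.eval 1 ≠ 0 := by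
      intro hcon
      rw [e1, Polynomial.eval_mul, hcon, mul_zero] at hh1
      exact hg hh1.symm
    have hΓ'1 : Γ'.eval 1 = 0 := by
      rw [e2, Polynomial.eval_mul] at hΓ1
      simpa using hΓ1
    have hcurve : ∀ p ∈ L0 ++ [(d, G)], aeval (comb P Γ' (-h') v) p.2 = 0 := by
      apply hmem
      · intro p hp
        exact comb_all_zero (hL0 p hp).2 (hP p hp) (hA p hp) _ _
      · show aeval (comb P Γ' (-h') v) G = 0
        rw [comb_two hd hG hPG hB, ← hh, ← hΓ]
        obtain ⟨c, rfl⟩ : ∃ c, d = c + 1 := ⟨d - 1, by omega⟩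
        rw [Nat.add_sub_cancel, pow_succ]
        rw [show Γ' * (-h') ^ c * h + (-h') ^ c * -h' * Γ = (-h') ^ c * (Γ' * h - h' * Γ) by ring,
          e1, e2]
        ring
    have hZ : (fun j => (comb P Γ' (-h') v j).eval 0) = Γ'.eval 0 • P - h'.eval 0 • w := by
      rw [comb_eval, hv0, Polynomial.eval_neg, neg_smul, ← sub_eq_add_neg]
    refine ⟨Γ'.eval 0 • P - h'.eval 0 • w, ⟨?_, ?_⟩, ?_, ?_⟩
    · intro hcon
      have c1 := congrFun hcon j0
      simp only [Pi.sub_apply, Pi.smul_apply, smul_eq_mul, hw4, mul_zero, sub_zero,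
        Pi.zero_apply] at c1
      have c2 : Γ'.eval 0 = 0 := by
        rcases mul_eq_zero.mp c1 with c | c
        · exact c
        · exact absurd c hj0
      rw [c2, zero_smul, zero_sub, neg_eq_zero, smul_eq_zero] at hcon
      rcases hcon with c | c
      · rcases e3 with e | e
        · exact e c
        · exact e c2
      · exact hw0 c
    · intro p hp
      have := eval_aeval (comb P Γ' (-h') v) p.2 0
      rw [hcurve p hp, hZ, Polynomial.eval_zero] at this
      exact this.symm
    · refine ⟨comb P Γ' (-h') v, hcurve, ⟨1, one_ne_zero, ?_⟩, ⟨-(h'.eval 1),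
        neg_ne_zero.mpr hh'1, ?_⟩⟩
      · rw [hZ, one_smul]
      · rw [comb_eval, hv1, hΓ'1, zero_smul, zero_add, Polynomial.eval_neg]
    · by_cases hwG : eval w G = 0
      · refine ⟨comb P ((1 - Polynomial.X) * Polynomial.C (Γ'.eval 0) + Polynomial.X)
          (-((1 - Polynomial.X) * Polynomial.C (h'.eval 0))) (emb w), ?_, ⟨1, one_ne_zero, ?_⟩,
          ⟨1, one_ne_zero, ?_⟩⟩
        · apply hmem
          · intro p hp
            apply comb_all_zero (hL0 p hp).2 (hP p hp)
            intro i hi
            rw [aeval_emb, hwA p hp i hi, map_zero]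
          · apply comb_all_zero hG hPG
            intro i hi
            rcases hcast i hi with h | h | h
            · rw [aeval_emb, hwB i h, map_zero]
            · rw [h, aeval_emb, hw3, map_zero]
            · rw [h, aeval_emb, pol_top hG, hwG, map_zero]
        · rw [comb_eval, emb_eval]
          simp [sub_eq_add_neg]
        · rw [comb_eval, emb_eval]
          simp
      · have hj : j = 0 := by
          by_contra hj
          rw [← hΓ0, e2, Polynomial.eval_mul, Polynomial.eval_pow, Polynomial.eval_X,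
            zero_pow hj, zero_mul] at hwG
          exact hwG rfl
        subst hj
        rw [pow_zero, one_mul] at e1 e2
        rw [← e1, ← e2, hh0, zero_smul, sub_zero, hΓ0]
        have := link_const hPS hwG (one_ne_zero)
        rwa [one_smul] at this

end Pool.Agent.H13.RE
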