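import Pool.Agent.H13.RE.Cyc
import Pool.Agent.H13.RE.StepB

/-!
# The two rational equivalences
-/

set_option autoImplicit false

namespace Pool.Agent.H13.RE

open MvPolynomial

universe u

section field

variable {E : Type u} [Field E] {N : ℕ}

/-- the line through two points -/
noncomputable def ln (P B : Fin N → E) : Fin N → MvPolynomial (Fin 2) E :=
  fun j => X 0 * algebraMap E _ (P j) + X 1 * C (B j)

/-- a family of lines through a point -/
noncomputable def fam (P : Fin N → E) (w : Fin N → Polynomial E) :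
    Fin N → MvPolynomial (Fin 2) (Polynomial E) :=
  fun j => X 0 * algebraMap E _ (P j) + X 1 * C (w j)

lemma aeval_C_comp {A : Type u} [CommRing A] [Algebra E A] (w : Fin N → A)
    (F : MvPolynomial (Fin N) E) :
    aeval (fun j => (C (w j) : MvPolynomial (Fin 2) A)) F = C (aeval w F) :=
  MvPolynomial.aeval_algebraMap_apply (MvPolynomial (Fin 2) A) w F

lemma ln_spec {F : MvPolynomial (Fin N) E} {e : ℕ} (hF : F.IsHomogeneous e) (P B : Fin N → E) :
    aeval (ln P B) F =
      ∑ i ∈ Finset.range (e + 1), X 0 ^ (e - i) * X 1 ^ i * C (eval B (pol F e P i)) := by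
  unfold ln
  rw [pol_spec hF P (MvPolynomial (Fin 2) E) (X 0) (X 1) (fun j => C (B j))]
  refine Finset.sum_congr rfl fun i _ => ?_
  rw [aeval_C_comp, aeval_eq_eval]

lemma fam_spec {F : MvPolynomial (Fin N) E} {e : ℕ} (hF : F.IsHomogeneous e) (P : Fin N → E)
    (w : Fin N → Polynomial E) :
    aeval (fam P w) F =
      ∑ i ∈ Finset.range (e + 1), X 0 ^ (e - i) * X 1 ^ i * C (aeval w (pol F e P i)) := by
  unfold fam
  rw [pol_spec hF P (MvPolynomial (Fin 2) (Polynomial E)) (X 0) (X 1) (fun j => C (w j))]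
  refine Finset.sum_congr rfl fun i _ => ?_
  rw [aeval_C_comp]

lemma ln_hom (P B : Fin N → E) (j : Fin N) : (ln P B j).IsHomogeneous 1 := by
  unfold ln
  apply IsHomogeneous.add
  · have := (isHomogeneous_X E (0 : Fin 2)).mul (isHomogeneous_C (Fin 2) (P j))
    rwa [add_zero] at this
  · have := (isHomogeneous_X E (1 : Fin 2)).mul (isHomogeneous_C (Fin 2) (B j))
    rwa [add_zero] at this

lemma fam_hom (P : Fin N → E) (w : Fin N → Polynomial E) (j : Fin N) :
    (fam P w j).IsHomogeneous 1 := by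
  unfold fam
  apply IsHomogeneous.add
  · have := (isHomogeneous_X (Polynomial E) (0 : Fin 2)).mul
      (isHomogeneous_C (Fin 2) (Polynomial.C (P j)))
    rwa [add_zero] at this
  · have := (isHomogeneous_X (Polynomial E) (1 : Fin 2)).mul (isHomogeneous_C (Fin 2) (w j))
    rwa [add_zero] at this

lemma ln_zero {F : MvPolynomial (Fin N) E} {e : ℕ} (hF : F.IsHomogeneous e) {P B : Fin N → E}
    (h0 : eval P F = 0) (h : ∀ i < e, eval B (pol F e P (i + 1)) = 0) :
    aeval (ln P B) F = 0 := by
  rw [ln_spec hF]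
  apply Finset.sum_eq_zero
  intro i hi
  rw [Finset.mem_range] at hi
  rcases Nat.eq_zero_or_pos i with h1 | h1
  · subst h1
    rw [pol_zero hF, h0, map_zero, mul_zero]
  · have := h (i - 1) (by omega)
    rw [Nat.sub_add_cancel h1] at this
    rw [this, map_zero, mul_zero]

lemma fam_zero {F : MvPolynomial (Fin N) E} {e : ℕ} (hF : F.IsHomogeneous e) {P : Fin N → E}
    {w : Fin N → Polynomial E}
    (h0 : eval P F = 0) (h : ∀ i < e, aeval w (pol F e P (i + 1)) = 0) :
    aeval (fam P w) F = 0 := by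
  rw [fam_spec hF]
  apply Finset.sum_eq_zero
  intro i hi
  rw [Finset.mem_range] at hi
  rcases Nat.eq_zero_or_pos i with h1 | h1
  · subst h1
    rw [pol_zero_A hF, h0, map_zero, map_zero, mul_zero]
  · have := h (i - 1) (by omega)
    rw [Nat.sub_add_cancel h1] at this
    rw [this, map_zero, mul_zero]

/-- only one polar survives -/
lemma ln_one {F : MvPolynomial (Fin N) E} {e : ℕ} (hF : F.IsHomogeneous e) {P B : Fin N → E}
    (h0 : eval P F = 0) {c : ℕ} (hc : c < e)
    (h : ∀ i < e, i ≠ c → eval B (pol F e P (i + 1)) = 0) :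
    aeval (ln P B) F = C (eval B (pol F e P (c + 1))) * (X 0 ^ (e - (c + 1)) * X 1 ^ (c + 1)) := by
  rw [ln_spec hF, Finset.sum_eq_single (c + 1)]
  · ring
  · intro i hi hi2
    rw [Finset.mem_range] at hi
    rcases Nat.eq_zero_or_pos i with h1 | h1
    · subst h1
      rw [pol_zero hF, h0, map_zero, mul_zero]
    · have := h (i - 1) (by omega) (by omega)
      rw [Nat.sub_add_cancel h1] at this
      rw [this, map_zero, mul_zero]
  · intro h1
    exact absurd (Finset.mem_range.mpr (by omega)) h1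

lemma map_eval_fam (P : Fin N → E) (w : Fin N → Polynomial E) (τ : E) (j : Fin N) :
    MvPolynomial.map (Polynomial.evalRingHom τ) (fam P w j) = ln P (fun j => (w j).eval τ) j := by
  unfold fam ln
  rw [map_add, map_mul, map_mul, MvPolynomial.map_X, MvPolynomial.map_X, MvPolynomial.map_C,
    MvPolynomial.algebraMap_apply, MvPolynomial.map_C, MvPolynomial.algebraMap_apply,
    Polynomial.algebraMap_apply]
  simp

lemma map_eval_aeval (P : Fin N → E) (w : Fin N → Polynomial E) (τ : E)
    (F : MvPolynomial (Fin N) E) :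
    MvPolynomial.map (Polynomial.evalRingHom τ) (aeval (fam P w) F) =
      aeval (ln P (fun j => (w j).eval τ)) F := by
  have hc : (MvPolynomial.map (Polynomial.evalRingHom τ)).comp
      (algebraMap E (MvPolynomial (Fin 2) (Polynomial E))) =
      algebraMap E (MvPolynomial (Fin 2) E) := by
    refine RingHom.ext fun a => ?_
    rw [RingHom.comp_apply, MvPolynomial.algebraMap_apply, MvPolynomial.algebraMap_apply,
      MvPolynomial.map_C, Polynomial.algebraMap_apply]
    simp
  rw [MvPolynomial.map_aeval]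
  simp only [map_eval_fam]
  rw [hc]
  rfl

/-- dividing by a power of `T` -/
lemma exists_div {H : MvPolynomial (Fin 2) (Polynomial E)} (hH : H ≠ 0) :
    ∃ (j : ℕ) (g : MvPolynomial (Fin 2) (Polynomial E)), H = C Polynomial.X ^ j * g ∧
      MvPolynomial.map (Polynomial.evalRingHom 0) g ≠ 0 := by
  have hu : ¬ IsUnit (C Polynomial.X : MvPolynomial (Fin 2) (Polynomial E)) := by
    intro h
    have h2 := h.map (MvPolynomial.constantCoeff)
    rw [MvPolynomial.constantCoeff_C] at h2
    exact Polynomial.not_isUnit_X h2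
  have hf : FiniteMultiplicity (C Polynomial.X : MvPolynomial (Fin 2) (Polynomial E)) H :=
    FiniteMultiplicity.of_not_isUnit hu hH
  obtain ⟨g, hg, hg2⟩ := hf.exists_eq_pow_mul_and_not_dvd
  refine ⟨_, g, hg, fun hc => hg2 ?_⟩
  rw [MvPolynomial.C_dvd_iff_dvd_coeff]
  intro s
  rw [Polynomial.X_dvd_iff, Polynomial.coeff_zero_eq_eval_zero]
  have := congrArg (MvPolynomial.coeff s) hc
  rw [MvPolynomial.coeff_map, MvPolynomial.coeff_zero] at this
  exact this

end field

section main

variable {k : Type u} [Field k] {n r : ℕ} {f : Fin r → MvPolynomial (Fin (n + 1)) k}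
  {E : IntermediateField k (AlgebraicClosure k)}

/-- every form `f i` is (over `E`) in the list or equal to `G` -/
def Sub (f : Fin r → MvPolynomial (Fin (n + 1)) k) (L0 : Sys E (n + 1))
    (G : MvPolynomial (Fin (n + 1)) E) : Prop :=
  ∀ i, MvPolynomial.map (algebraMap k E) (f i) = G ∨
    ∃ p ∈ L0, p.2 = MvPolynomial.map (algebraMap k E) (f i)

lemma sub_zero' {L0 : Sys E (n + 1)} {G : MvPolynomial (Fin (n + 1)) E} (hb : Sub f L0 G)
    {A : Type u} [CommRing A] [Algebra E A] [Algebra k A] [IsScalarTower k E A]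
    {x : Fin (n + 1) → A} (h1 : ∀ p ∈ L0, aeval x p.2 = 0) (h2 : aeval x G = 0) (i : Fin r) :
    aeval x (f i) = 0 := by
  rw [← MvPolynomial.aeval_map_algebraMap E x (f i)]
  rcases hb i with h | ⟨p, hp, h⟩
  · rw [h, h2]
  · rw [← h, h1 p hp]

lemma sub_dvd' {L0 : Sys E (n + 1)} {G : MvPolynomial (Fin (n + 1)) E} (hb : Sub f L0 G)
    {A : Type u} [CommRing A] [Algebra E A] [Algebra k A] [IsScalarTower k E A]
    {x : Fin (n + 1) → A} (h1 : ∀ p ∈ L0, aeval x p.2 = 0) {g : A} (h2 : g ∣ aeval x G)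
    (i : Fin r) : g ∣ aeval x (f i) := by
  rw [← MvPolynomial.aeval_map_algebraMap E x (f i)]
  rcases hb i with h | ⟨p, hp, h⟩
  · rw [h]
    exact h2
  · rw [← h, h1 p hp]
    exact dvd_zero _

lemma conj_ne (σ : E →ₐ[k] AlgebraicClosure k) {P : Fin (n + 1) → E} (hP : P ≠ 0) :
    (fun j => σ (P j)) ≠ 0 :=
  fun h => hP (funext fun j => σ.toRingHom.injective
        ((congrFun h j).trans (map_zero σ).symm))

/-- a conjugate of a point -/
noncomputable def cj (σ : E →ₐ[k] AlgebraicClosure k) (P : Fin (n + 1) → E) (hP : P ≠ 0) :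
    PP (AlgebraicClosure k) n →₀ ℤ :=
  Finsupp.single (Projectivization.mk (AlgebraicClosure k) (fun j => σ (P j)) (conj_ne σ hP)) 1

lemma pt_eq [FiniteDimensional k E] (P : Fin (n + 1) → E) (hP : P ≠ 0) :
    pt E P hP = ∑ σ, cj σ P hP := rfl

lemma isCyc_P (σ : E →ₐ[k] AlgebraicClosure k) (P B : Fin (n + 1) → E) (hP : P ≠ 0) :
    IsCyc (X 1) (fun j => MvPolynomial.map σ.toRingHom (ln P B j)) (cj σ P hP) := by
  apply isCyc_X1
  intro j
  simp [ln, MvPolynomial.algebraMap_eq]

lemma isCyc_B (σ : E →ₐ[k] AlgebraicClosure k) (P B : Fin (n + 1) → E) (hB : B ≠ 0) :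
    IsCyc (X 0) (fun j => MvPolynomial.map σ.toRingHom (ln P B j)) (cj σ B hB) := by
  apply isCyc_X0
  intro j
  simp [ln, MvPolynomial.algebraMap_eq]

variable [hE : FiniteDimensional k E]

lemma lemA {P R : Fin (n + 1) → E} (hP : P ≠ 0) (hR : R ≠ 0)
    (h : ∀ i, aeval (ln P R) (f i) = 0) : pt E P hP - pt E R hR ∈ Rat f := by
  rw [pt_eq, pt_eq, ← Finset.sum_sub_distrib]
  apply gen_line f E (ln_hom P R) h (g0 := X 1) (g1 := X 0) (isHomogeneous_X E 1)
    (isHomogeneous_X E 0)
  · intro σ
    rw [MvPolynomial.map_X]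
    exact isCyc_P σ P R hP
  · intro σ
    rw [MvPolynomial.map_X]
    exact isCyc_B σ P R hR

lemma lemB {P v : Fin (n + 1) → E} (hP : P ≠ 0) (hv : v ≠ 0) {j0 : Fin (n + 1)}
    (hP0 : P j0 ≠ 0) (hv0 : v j0 = 0) (h : ∀ i, aeval (ln P v) (f i) = 0)
    {g0 : MvPolynomial (Fin 2) E} {d : ℕ} (hg0 : g0 ≠ 0) (hgd : g0.IsHomogeneous d) :
    ∃ z0 : (E →ₐ[k] AlgebraicClosure k) → (PP (AlgebraicClosure k) n →₀ ℤ),
      (∀ σ, IsCyc (MvPolynomial.map σ.toRingHom g0)
        (fun j => MvPolynomial.map σ.toRingHom (ln P v j)) (z0 σ)) ∧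
      ∑ σ, (z0 σ - d • cj σ P hP) ∈ Rat f := by
  have key : ∀ σ : E →ₐ[k] AlgebraicClosure k, ∃ z : PP (AlgebraicClosure k) n →₀ ℤ,
      IsCyc (MvPolynomial.map σ.toRingHom g0)
        (fun j => MvPolynomial.map σ.toRingHom (ln P v j)) z := by
    intro σ
    have h1 : MvPolynomial.map σ.toRingHom g0 ≠ 0 := by
      intro hc
      apply hg0
      apply MvPolynomial.map_injective _ σ.toRingHom.injective
      rw [hc, map_zero]
    obtain ⟨ρ, c, hc, hρ, hfac⟩ := exists_factor d _ (hgd.map σ.toRingHom) h1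
    have hx : ∀ i, (fun j => eval (ρ i) (MvPolynomial.map σ.toRingHom (ln P v j))) ≠ 0 := by
      intro i hi
      apply hρ i
      have e1 : ∀ j, ρ i 0 * σ (P j) + ρ i 1 * σ (v j) = 0 := by
        intro j
        have := congrFun hi j
        simpa [ln, MvPolynomial.algebraMap_eq] using this
      have e2 : ρ i 0 = 0 := by
        have := e1 j0
        rw [hv0, map_zero, mul_zero, add_zero] at this
        rcases mul_eq_zero.mp this with h2 | h2
        · exact h2
        · exact absurd (σ.toRingHom.injective (h2.trans (map_zero σ).symm)) hP0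
      have e3 : ρ i 1 = 0 := by
        by_contra hne
        apply hv
        funext j
        have := e1 j
        rw [e2, zero_mul, zero_add] at this
        rcases mul_eq_zero.mp this with h2 | h2
        · exact absurd h2 hne
        · exact σ.toRingHom.injective (h2.trans (map_zero σ).symm)
      funext l
      fin_cases l
      · exact e2
      · exact e3
    exact ⟨_, d, ρ, c, hx, hc, hρ, hfac, rfl⟩
  choose z0 hz0 using key
  refine ⟨z0, hz0, ?_⟩
  have hX : (X 1 ^ d : MvPolynomial (Fin 2) E).IsHomogeneous d := by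
    have := (isHomogeneous_X E (1 : Fin 2)).pow d
    rwa [one_mul] at this
  apply gen_line f E (ln_hom P v) h (g0 := g0) (g1 := X 1 ^ d) hgd hX hz0
  intro σ
  rw [map_pow, MvPolynomial.map_X]
  exact isCyc_pow (isCyc_P σ P v hP) d

end main

end Pool.Agent.H13.RE
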