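import Pool.Agent.H13.RE.LemC

/-!
# A point is equivalent to its residual points
-/

set_option autoImplicit false

namespace Pool.Agent.H13.RE

open MvPolynomial

universe u

variable {k : Type u} [Field k] {n r : ℕ} {f : Fin r → MvPolynomial (Fin (n + 1)) k}
  {E : IntermediateField k (AlgebraicClosure k)}

lemma spec_eq (σ : E →ₐ[k] AlgebraicClosure k) (τ : E) (g : MvPolynomial (Fin 2) (Polynomial E)) :
    spec σ.toRingHom τ g =
      MvPolynomial.map σ.toRingHom (MvPolynomial.map (Polynomial.evalRingHom τ) g) := by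
  unfold spec
  rw [MvPolynomial.map_map]

variable [hE : FiniteDimensional k E]

theorem lemC (hS : C1Sys E) {L0 : Sys E (n + 1)} (hL0 : Ok L0) {d : ℕ} (hd : 2 ≤ d)
    {G : MvPolynomial (Fin (n + 1)) E} (hG : G.IsHomogeneous d) (hb : Sub f L0 G)
    {P R : Fin (n + 1) → E} (hP0 : P ≠ 0) (hR0 : R ≠ 0)
    (hP : ∀ p ∈ L0, eval P p.2 = 0) (hPG : eval P G = 0)
    (hR : ∀ p ∈ L0, ∀ i < p.1, eval R (pol p.2 p.1 P (i + 1)) = 0) (hRG : eval R G = 0)
    (hRi : ∀ i < d - 2, eval R (pol G d P (i + 1)) = 0)
    (hn : (L0.map (fun p => (p.1 + 2).choose 3)).sum + d.choose 2 + 1 < n + 1) :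
    pt E P hP0 - pt E R hR0 ∈ Rat f := by
  have hcast : ∀ i, i < d → (i < d - 2) ∨ i + 1 = d - 1 ∨ i + 1 = d := by
    intro i hi
    omega
  by_cases hg : eval R (pol G d P (d - 1)) = 0
  · apply lemA
    apply sub_zero' hb
    · intro p hp
      exact ln_zero (hL0 p hp).2 (hP p hp) (hR p hp)
    · apply ln_zero hG hPG
      intro i hi
      rcases hcast i hi with h | h | h
      · exact hRi i h
      · rw [h, hg]
      · rw [h, pol_top hG, hRG]
  · obtain ⟨j0, hj0⟩ : ∃ j, P j ≠ 0 := by
      by_contra hcon
      push Not at hcon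
      exact hP0 (funext hcon)
    obtain ⟨v, hv0, hv⟩ := hS.list (L0.flatMap (fun p => polpolL p.2 p.1 P R p.1) ++
        polL G d P (d - 1) ++ [(1, X j0)]) (by
      apply ok_append
      · apply ok_append
        · exact ok_flatMap fun p hp => ok_polpolL (hL0 p hp).2 P R p.1
        · exact ok_polL hG P (d - 1)
      · exact ok_singleton le_rfl (isHomogeneous_X E j0)) (by
      rw [cost_append, cost_append, cost_flatMap, cost_polL, cost_singleton]
      simp only [cost_polpolL]
      rw [show d - 1 + 1 = d by omega]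
      exact hn)
    have hv1 : ∀ p ∈ L0, ∀ i < p.1, ∀ l < i + 1,
        eval v (pol (pol p.2 p.1 P (i + 1)) (i + 1) R (l + 1)) = 0 := by
      intro p hp i hi l hl
      apply hv (l + 1, _)
      apply List.mem_append_left
      apply List.mem_append_left
      exact List.mem_flatMap.mpr ⟨p, hp, mem_polpolL hi hl⟩
    have hv2 : ∀ i < d - 1, eval v (pol G d P (i + 1)) = 0 := by
      intro i hi
      apply hv (i + 1, _)
      apply List.mem_append_left
      apply List.mem_append_right
      exact mem_polL hi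
    have hv4 : v j0 = 0 := by
      have := hv (1, X j0) (List.mem_append_right _ (List.mem_singleton.mpr rfl))
      simpa using this
    -- the family
    obtain ⟨w, hw⟩ : ∃ w, w = comb R Polynomial.X (1 - Polynomial.X) (emb v) := ⟨_, rfl⟩
    have hw0 : (fun j => (w j).eval 0) = v := by
      rw [hw, comb_eval, emb_eval]
      simp
    have hw1 : (fun j => (w j).eval 1) = R := by
      rw [hw, comb_eval, emb_eval]
      simp
    have hA : ∀ p ∈ L0, ∀ i < p.1, aeval w (pol p.2 p.1 P (i + 1)) = 0 := by
      intro p hp i hi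
      rw [hw]
      apply comb_all_zero (pol_hom (hL0 p hp).2 P (i + 1)) (hR p hp i hi)
      intro l hl
      rw [aeval_emb, hv1 p hp i hi l hl, map_zero]
    have hvA : ∀ p ∈ L0, ∀ i < p.1, eval v (pol p.2 p.1 P (i + 1)) = 0 := by
      intro p hp i hi
      have := eval_aeval w (pol p.2 p.1 P (i + 1)) 0
      rw [hA p hp i hi, hw0, Polynomial.eval_zero] at this
      exact this.symm
    have hfam : ∀ p ∈ L0, aeval (fam P w) p.2 = 0 := fun p hp =>
      fam_zero (hL0 p hp).2 (hP p hp) (hA p hp)
    obtain ⟨c, hc⟩ : ∃ c, c = eval R (pol G d P (d - 1)) := ⟨_, rfl⟩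
    rw [← hc] at hg
    obtain ⟨H, hH⟩ : ∃ H, H = aeval (fam P w) G := ⟨_, rfl⟩
    have hH1 : MvPolynomial.map (Polynomial.evalRingHom 1) H = C c * (X 0 * X 1 ^ (d - 1)) := by
      rw [hH, map_eval_aeval, hw1, ln_one hG hPG (c := d - 2) (by omega), hc,
        show d - 2 + 1 = d - 1 by omega, show d - (d - 1) = 1 by omega, pow_one]
      intro i hi hi2
      rcases hcast i hi with h | h | h
      · exact hRi i h
      · omega
      · rw [h, pol_top hG, hRG]
    have hH0 : MvPolynomial.map (Polynomial.evalRingHom 0) H = C (eval v G) * X 1 ^ d := by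
      rw [hH, map_eval_aeval, hw0, ln_one hG hPG (c := d - 1) (by omega),
        show d - 1 + 1 = d by omega, Nat.sub_self, pow_zero, one_mul, pol_top hG]
      intro i hi hi2
      exact hv2 i (by omega)
    have hx1 : ∀ (σ : E →ₐ[k] AlgebraicClosure k), (fun j => spec σ.toRingHom 1 (fam P w j)) =
        fun j => MvPolynomial.map σ.toRingHom (ln P R j) := by
      intro σ
      funext j
      rw [spec_eq, map_eval_fam, hw1]
    have hx0 : ∀ (σ : E →ₐ[k] AlgebraicClosure k), (fun j => spec σ.toRingHom 0 (fam P w j)) =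
        fun j => MvPolynomial.map σ.toRingHom (ln P v j) := by
      intro σ
      funext j
      rw [spec_eq, map_eval_fam, hw0]
    have hcyc1 : ∀ (σ : E →ₐ[k] AlgebraicClosure k),
        IsCyc (spec σ.toRingHom 1 H) (fun j => spec σ.toRingHom 1 (fam P w j))
          (0 + (cj σ R hR0 + (d - 1) • cj σ P hP0)) := by
      intro σ
      rw [spec_eq, hH1, hx1, map_mul, map_mul, MvPolynomial.map_C, map_pow, MvPolynomial.map_X,
        MvPolynomial.map_X]
      refine isCyc_mul (isCyc_C ?_) (isCyc_mul (isCyc_B σ P R hR0)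
        (isCyc_pow (isCyc_P σ P R hP0) (d - 1)))
      intro h
      exact hg (σ.toRingHom.injective (h.trans (map_zero σ.toRingHom).symm))
    have hHhom : H.IsHomogeneous d := by
      rw [hH]
      have := hG.aeval (fam P w) (n := 1) (fam_hom P w)
      rwa [one_mul] at this
    by_cases hvG : eval v G = 0
    · have hHne : H ≠ 0 := by
        rintro rfl
        rw [map_zero] at hH1
        apply hg
        have h1 := congrArg (eval ![1, 1]) hH1
        simpa using h1.symm
      obtain ⟨j, g, hHg, hg0⟩ := exists_div hHne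
      have hghom : g.IsHomogeneous d := by
        intro s hs
        apply hHhom
        rw [hHg, ← map_pow, MvPolynomial.coeff_C_mul]
        exact mul_ne_zero (pow_ne_zero _ Polynomial.X_ne_zero) hs
      have hline : ∀ i, aeval (ln P v) (f i) = 0 := by
        apply sub_zero' hb
        · intro p hp
          exact ln_zero (hL0 p hp).2 (hP p hp) (hvA p hp)
        · apply ln_zero hG hPG
          intro i hi
          rcases Nat.lt_or_ge i (d - 1) with h | h
          · exact hv2 i h
          · rw [show i + 1 = d by omega, pol_top hG, hvG]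
      obtain ⟨z0, hz0, hz0'⟩ := lemB hP0 hv0 hj0 hv4 hline hg0 (hghom.map _)
      have hgen : ∑ σ : E →ₐ[k] AlgebraicClosure k,
          (z0 σ - (0 + (cj σ R hR0 + (d - 1) • cj σ P hP0))) ∈ Rat f := by
        apply AddSubgroup.subset_closure
        refine ⟨E, hE, 1, d, g, fam P w, z0, _, hghom, fam_hom P w, ?_, fun σ => ?_, fun σ => ?_, rfl⟩
        · apply sub_dvd' hb hfam
          rw [← hH, hHg]
          exact dvd_mul_left _ _
        · rw [spec_eq, hx0]
          exact hz0 σ
        · have e1 : spec σ.toRingHom 1 g = spec σ.toRingHom 1 H := by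
            rw [spec_eq, spec_eq, hHg, map_mul, map_pow, MvPolynomial.map_C]
            simp
          rw [e1]
          exact hcyc1 σ
      have := (Rat f).sub_mem hgen hz0'
      rw [← Finset.sum_sub_distrib] at this
      rw [pt_eq, pt_eq, ← Finset.sum_sub_distrib]
      convert this using 2 with σ
      obtain ⟨m, rfl⟩ : ∃ m, d = m + 1 := ⟨d - 1, by omega⟩
      rw [Nat.add_sub_cancel, succ_nsmul]
      abel
    · have hgen : ∑ σ : E →ₐ[k] AlgebraicClosure k,
          ((0 + d • cj σ P hP0) - (0 + (cj σ R hR0 + (d - 1) • cj σ P hP0))) ∈ Rat f := by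
        apply AddSubgroup.subset_closure
        refine ⟨E, hE, 1, d, H, fam P w, _, _, hHhom, fam_hom P w, ?_, fun σ => ?_, hcyc1, rfl⟩
        · apply sub_dvd' hb hfam
          rw [← hH]
        · rw [spec_eq, hx0, hH0, map_mul, MvPolynomial.map_C, map_pow, MvPolynomial.map_X]
          refine isCyc_mul (isCyc_C ?_) (isCyc_pow (isCyc_P σ P v hP0) d)
          intro h
          exact hvG (σ.toRingHom.injective (h.trans (map_zero σ.toRingHom).symm))
      rw [pt_eq, pt_eq, ← Finset.sum_sub_distrib]
      convert hgen using 2 with σ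
      obtain ⟨m, rfl⟩ : ∃ m, d = m + 1 := ⟨d - 1, by omega⟩
      rw [Nat.add_sub_cancel, succ_nsmul]
      abel

end Pool.Agent.H13.RE
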