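import Pool.Agent.H13.RE.Systems

/-!
# The property `C₁` (for systems) passes to finite extensions
-/

set_option autoImplicit false

namespace Pool.Agent.H13.RE

open MvPolynomial

universe u

section

variable {k E : Type u} [Field k] [Field E] [Algebra k E] {m : ℕ} (b : Module.Basis (Fin m) k E)
  {ι : Type}

/-- a coordinate of a polynomial -/
noncomputable def coP (Φ : MvPolynomial ι E) (l : Fin m) : MvPolynomial ι k :=
  ∑ s ∈ Φ.support, monomial s (b.repr (coeff s Φ) l)

lemma coeff_coP (Φ : MvPolynomial ι E) (l : Fin m) (s : ι →₀ ℕ) :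
    coeff s (coP b Φ l) = b.repr (coeff s Φ) l := by
  classical
  unfold coP
  rw [coeff_sum]
  simp only [coeff_monomial]
  rw [Finset.sum_ite_eq']
  split_ifs with h
  · rfl
  · rw [notMem_support_iff.mp h, map_zero]
    rfl

lemma coP_hom {Φ : MvPolynomial ι E} {d : ℕ} (h : Φ.IsHomogeneous d) (l : Fin m) :
    (coP b Φ l).IsHomogeneous d := by
  intro s hs
  apply h
  rw [coeff_coP] at hs
  intro hc
  rw [hc, map_zero] at hs
  exact hs rfl

lemma eval_coP (Φ : MvPolynomial ι E) (y : ι → k) :
    ∑ l, algebraMap k E (eval y (coP b Φ l)) * b l = eval (fun i => algebraMap k E (y i)) Φ := by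
  have e1 : ∀ l, algebraMap k E (eval y (coP b Φ l)) * b l =
      ∑ s ∈ Φ.support, (algebraMap k E (b.repr (coeff s Φ) l) * b l) *
        algebraMap k E (s.prod fun i e => y i ^ e) := by
    intro l
    unfold coP
    rw [map_sum, map_sum, Finset.sum_mul]
    refine Finset.sum_congr rfl fun s _ => ?_
    rw [eval_monomial, map_mul]
    ring
  simp only [e1]
  rw [Finset.sum_comm]
  rw [MvPolynomial.eval_eq]
  refine Finset.sum_congr rfl fun s _ => ?_
  rw [← Finset.sum_mul]
  congr 1
  · have := b.sum_repr (coeff s Φ)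
    simpa only [Algebra.smul_def] using this
  · rw [Finsupp.prod, map_prod]
    refine Finset.prod_congr rfl fun i _ => ?_
    rw [map_pow]

end

lemma eval_comp {A : Type*} [CommRing A] {α β : Type*} (y : β → A)
    (g : α → MvPolynomial β A) (F : MvPolynomial α A) :
    eval y (aeval g F) = eval (fun j => eval y (g j)) F := by
  have h : (aeval y).comp (aeval g : MvPolynomial α A →ₐ[A] MvPolynomial β A) =
      (aeval (fun j => eval y (g j)) : MvPolynomial α A →ₐ[A] A) := by
    apply MvPolynomial.algHom_ext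
    intro i
    simp [aeval_eq_eval]
  have := DFunLike.congr_fun h F
  simpa [aeval_eq_eval] using this

theorem c1_ext {k E : Type u} [Field k] [Field E] [Algebra k E] [FiniteDimensional k E]
    (h : C1Sys k) : C1Sys E := by
  intro N r d f hd hf hsum
  obtain ⟨m, hm⟩ : ∃ m, m = Module.finrank k E := ⟨_, rfl⟩
  have hm0 : 0 < m := by
    rw [hm]
    exact Module.finrank_pos
  obtain ⟨b⟩ : Nonempty (Module.Basis (Fin m) k E) := by
    rw [hm]
    exact ⟨Module.finBasis k E⟩
  obtain ⟨g, hg⟩ : ∃ g : Fin N → MvPolynomial (Fin N × Fin m) E,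
      g = fun j => ∑ t, C (b t) * X (j, t) := ⟨_, rfl⟩
  have hghom : ∀ j, (g j).IsHomogeneous 1 := by
    intro j
    rw [hg]
    apply IsHomogeneous.sum
    intro t _
    have := (isHomogeneous_C (Fin N × Fin m) (b t)).mul (isHomogeneous_X E (j, t))
    rwa [zero_add] at this
  obtain ⟨Φ, hΦ⟩ : ∃ Φ : Fin r → MvPolynomial (Fin N × Fin m) E, Φ = fun i => aeval g (f i) :=
    ⟨_, rfl⟩
  have hΦhom : ∀ i, (Φ i).IsHomogeneous (d i) := by
    intro i
    rw [hΦ]
    have := (hf i).aeval g (n := 1) hghom
    rwa [one_mul] at this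
  obtain ⟨y', hy0, hy⟩ := h (N * m) (r * m) (fun q => d (finProdFinEquiv.symm q).1)
    (fun q => rename finProdFinEquiv (coP b (Φ (finProdFinEquiv.symm q).1)
      (finProdFinEquiv.symm q).2)) (fun q => hd _)
    (fun q => (coP_hom b (hΦhom _) _).rename_isHomogeneous) (by
      have e1 : ∑ q : Fin (r * m), d (finProdFinEquiv.symm q).1 = ∑ p : Fin r × Fin m, d p.1 :=
        Equiv.sum_comp finProdFinEquiv.symm (fun p : Fin r × Fin m => d p.1)
      rw [e1, Fintype.sum_prod_type]
      simp only [Finset.sum_const, Finset.card_univ, Fintype.card_fin, smul_eq_mul]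
      rw [← Finset.mul_sum, mul_comm]
      exact Nat.mul_lt_mul_of_pos_right hsum hm0)
  obtain ⟨y, hyy⟩ : ∃ y : Fin N × Fin m → k, y = y' ∘ finProdFinEquiv := ⟨_, rfl⟩
  have hy1 : ∀ i l, eval y (coP b (Φ i) l) = 0 := by
    intro i l
    have := hy (finProdFinEquiv (i, l))
    rw [eval_rename] at this
    simpa [hyy] using this
  have hY : (fun j => eval (fun p => algebraMap k E (y p)) (g j)) =
      fun j => ∑ t, y (j, t) • b t := by
    funext j
    rw [hg]
    simp only [map_sum, map_mul, eval_C, eval_X]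
    refine Finset.sum_congr rfl fun t _ => ?_
    rw [Algebra.smul_def, mul_comm]
  refine ⟨fun j => ∑ t, y (j, t) • b t, ?_, fun i => ?_⟩
  · intro h0
    apply hy0
    funext q
    have h1 := congrFun h0 (finProdFinEquiv.symm q).1
    have h2 := Fintype.linearIndependent_iff.mp b.linearIndependent _ h1
      (finProdFinEquiv.symm q).2
    have h3 : y ((finProdFinEquiv.symm q).1, (finProdFinEquiv.symm q).2) = y' q := by
      rw [hyy]
      exact congrArg y' (finProdFinEquiv.apply_symm_apply q)
    exact h3.symm.trans h2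
  · have h1 := eval_coP b (Φ i) y
    rw [Finset.sum_eq_zero] at h1
    · rw [hΦ] at h1
      simp only at h1
      rw [eval_comp, hY] at h1
      exact h1.symm
    · intro l _
      rw [hy1 i l, map_zero, zero_mul]

end Pool.Agent.H13.RE
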