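import Pool.Agent.H13.RE.StepB

/-!
# The common residual point, and the main theorem in vector form
-/

set_option autoImplicit false

namespace Pool.Agent.H13.RE

open MvPolynomial

universe u

variable {k : Type u} [Field k] {N : ℕ}

/-- the equations of the common residual point -/
noncomputable def sysA (L0 : Sys k N) (d : ℕ) (G : MvPolynomial (Fin N) k) (P Q : Fin N → k) :
    Sys k N :=
  L0.flatMap (fun p => polL p.2 p.1 P (p.1 - 1) ++ polL p.2 p.1 Q (p.1 - 1) ++ [p]) ++
    (polL G d P (d - 2) ++ polL G d Q (d - 2) ++ [(d, G)])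

lemma two_choose_two (n : ℕ) (hn : 1 ≤ n) : (n - 1 + 1).choose 2 + (n - 1 + 1).choose 2 + n =
    n ^ 2 := by
  obtain ⟨m, rfl⟩ : ∃ m, n = m + 1 := ⟨n - 1, by omega⟩
  rw [Nat.add_sub_cancel, Nat.choose_two_right, Nat.add_sub_cancel]
  have h : 2 ∣ (m + 1) * m := by
    rw [mul_comm]
    exact (Nat.even_mul_succ_self m).two_dvd
  obtain ⟨c, hc⟩ := h
  rw [hc, Nat.mul_div_cancel_left _ (by norm_num)]
  nlinarith

lemma cost_sysA (L0 : Sys k N) (hL0 : Ok L0) (d : ℕ) (hd : 2 ≤ d) (G : MvPolynomial (Fin N) k)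
    (P Q : Fin N → k) :
    cost (sysA L0 d G P Q) = (L0.map (fun p => p.1 ^ 2)).sum + (d - 1) ^ 2 + 1 := by
  unfold sysA
  rw [cost_append, cost_flatMap]
  have h1 : L0.map (fun p => cost (polL p.2 p.1 P (p.1 - 1) ++ polL p.2 p.1 Q (p.1 - 1) ++ [p])) =
      L0.map (fun p => p.1 ^ 2) := by
    apply List.map_congr_left
    intro p hp
    rw [cost_append, cost_append, cost_polL, cost_polL, cost_singleton]
    exact two_choose_two p.1 (hL0 p hp).1
  rw [h1, cost_append, cost_append, cost_polL, cost_polL, cost_singleton]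
  have h2 := two_choose_two (d - 1) (by omega)
  rw [show d - 1 - 1 = d - 2 by omega] at h2
  show _ + ((d - 2 + 1).choose 2 + (d - 2 + 1).choose 2 + d) = _ + (d - 1) ^ 2 + 1
  omega

lemma ok_sysA {L0 : Sys k N} (hL0 : Ok L0) {d : ℕ} (hd : 2 ≤ d) {G : MvPolynomial (Fin N) k}
    (hG : G.IsHomogeneous d) (P Q : Fin N → k) : Ok (sysA L0 d G P Q) := by
  apply ok_append
  · apply ok_flatMap
    intro p hp
    have := hL0 p hp
    exact ok_append (ok_append (ok_polL this.2 P _) (ok_polL this.2 Q _))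
      (ok_singleton this.1 this.2)
  · exact ok_append (ok_append (ok_polL hG P _) (ok_polL hG Q _))
      (ok_singleton (show 1 ≤ d by omega) hG)

/-- R-equivalence on nonzero vectors -/
def REq (S : Sys k N) (x y : Fin N → k) : Prop :=
  Relation.EqvGen (fun a b => IsPt S a ∧ IsPt S b ∧ Link S a b) x y

theorem main_vec (hS : C1Sys k) {n : ℕ} {L0 : Sys k (n + 1)} (hL0 : Ok L0) {d : ℕ} (hd : 2 ≤ d)
    {G : MvPolynomial (Fin (n + 1)) k} (hG : G.IsHomogeneous d)
    (hA : (L0.map (fun p => p.1 ^ 2)).sum + (d - 1) ^ 2 + 1 < n + 1)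
    (hB : (L0.map (fun p => (p.1 + 2).choose 3)).sum + d.choose 3 + (d - 1) + 1 < n + 1)
    {P Q : Fin (n + 1) → k} (hP : IsPt (L0 ++ [(d, G)]) P) (hQ : IsPt (L0 ++ [(d, G)]) Q) :
    REq (L0 ++ [(d, G)]) P Q := by
  obtain ⟨R, hR0, hR⟩ := hS.list (sysA L0 d G P Q) (ok_sysA hL0 hd hG P Q) (by
    rw [cost_sysA L0 hL0 d hd G P Q]
    exact hA)
  have hmem : ∀ p ∈ L0, p ∈ L0 ++ [(d, G)] := fun p hp => List.mem_append_left _ hp
  have hmemG : (d, G) ∈ L0 ++ [(d, G)] := List.mem_append_right _ (List.mem_singleton.mpr rfl)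
  have hRF : ∀ p ∈ L0, eval R p.2 = 0 := by
    intro p hp
    apply hR p
    apply List.mem_append_left
    exact List.mem_flatMap.mpr ⟨p, hp, List.mem_append_right _ (List.mem_singleton.mpr rfl)⟩
  have hRG : eval R G = 0 := by
    apply hR (d, G)
    exact List.mem_append_right _ (List.mem_append_right _ (List.mem_singleton.mpr rfl))
  have hRp : IsPt (L0 ++ [(d, G)]) R := by
    refine ⟨hR0, fun p hp => ?_⟩
    rcases List.mem_append.mp hp with h | h
    · exact hRF p h
    · rw [List.mem_singleton] at h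
      rw [h]
      exact hRG
  have key : ∀ T : Fin (n + 1) → k, IsPt (L0 ++ [(d, G)]) T →
      (∀ p ∈ L0, ∀ i < p.1 - 1, eval R (pol p.2 p.1 T (i + 1)) = 0) →
      (∀ i < d - 2, eval R (pol G d T (i + 1)) = 0) → REq (L0 ++ [(d, G)]) T R := by
    intro T hT h1 h2
    obtain ⟨Z, hZ, hZR, hZT⟩ := stepB hS hL0 hd hG hT.1 (fun p hp => hT.2 p (hmem p hp))
      (hT.2 _ hmemG) (R := R) (fun p hp i hi => by
        rcases Nat.lt_or_ge i (p.1 - 1) with h | h
        · exact h1 p hp i h
        · have : i + 1 = p.1 := by omega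
          rw [this, pol_top (hL0 p hp).2]
          exact hRF p hp) hRG h2 hB
    have e1 : REq (L0 ++ [(d, G)]) Z R := Relation.EqvGen.rel _ _ ⟨hZ, hRp, hZR⟩
    have e2 : REq (L0 ++ [(d, G)]) Z T := Relation.EqvGen.rel _ _ ⟨hZ, hT, hZT⟩
    exact Relation.EqvGen.trans _ _ _ (Relation.EqvGen.symm _ _ e2) e1
  have k1 : REq (L0 ++ [(d, G)]) P R := by
    apply key P hP
    · intro p hp i hi
      apply hR (i + 1, _)
      apply List.mem_append_left
      exact List.mem_flatMap.mpr ⟨p, hp, List.mem_append_left _ (List.mem_append_left _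
        (mem_polL hi))⟩
    · intro i hi
      apply hR (i + 1, _)
      exact List.mem_append_right _ (List.mem_append_left _ (List.mem_append_left _ (mem_polL hi)))
  have k2 : REq (L0 ++ [(d, G)]) Q R := by
    apply key Q hQ
    · intro p hp i hi
      apply hR (i + 1, _)
      apply List.mem_append_left
      exact List.mem_flatMap.mpr ⟨p, hp, List.mem_append_left _ (List.mem_append_right _
        (mem_polL hi))⟩
    · intro i hi
      apply hR (i + 1, _)
      exact List.mem_append_right _ (List.mem_append_left _ (List.mem_append_right _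
        (mem_polL hi)))
  exact Relation.EqvGen.trans _ _ _ k1 (Relation.EqvGen.symm _ _ k2)

end Pool.Agent.H13.RE
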