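import Pool.Agent.H13.RE.LemD
import Pool.Agent.H13.RE.ScalarRes
import Pool.Agent.H13.RE.StepA

/-!
# All points over a finite extension are equivalent
-/

set_option autoImplicit false

namespace Pool.Agent.H13.RE

open MvPolynomial

universe u

variable {k : Type u} [Field k] {n r : ℕ} {f : Fin r → MvPolynomial (Fin (n + 1)) k}
  {E : IntermediateField k (AlgebraicClosure k)} [hE : FiniteDimensional k E]

theorem lemE (hS : C1Sys E) {L0 : Sys E (n + 1)} (hL0 : Ok L0) {d : ℕ} (hd : 2 ≤ d)
    {G : MvPolynomial (Fin (n + 1)) E} (hG : G.IsHomogeneous d) (hb : Sub f L0 G)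
    {P Q : Fin (n + 1) → E} (hP0 : P ≠ 0) (hQ0 : Q ≠ 0)
    (hP : ∀ p ∈ L0, eval P p.2 = 0) (hPG : eval P G = 0)
    (hQ : ∀ p ∈ L0, eval Q p.2 = 0) (hQG : eval Q G = 0)
    (hA : (L0.map (fun p => p.1 ^ 2)).sum + (d - 1) ^ 2 + 1 < n + 1)
    (hB : (L0.map (fun p => (p.1 + 2).choose 3)).sum + d.choose 2 + 1 < n + 1) :
    pt E P hP0 - pt E Q hQ0 ∈ Rat f := by
  obtain ⟨R, hR0, hR⟩ := hS.list (sysA L0 d G P Q) (ok_sysA hL0 hd hG P Q) (by
    rw [cost_sysA L0 hL0 d hd G P Q]
    exact hA)
  have hRF : ∀ p ∈ L0, eval R p.2 = 0 := by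
    intro p hp
    apply hR p
    apply List.mem_append_left
    exact List.mem_flatMap.mpr ⟨p, hp, List.mem_append_right _ (List.mem_singleton.mpr rfl)⟩
  have hRG : eval R G = 0 := by
    apply hR (d, G)
    exact List.mem_append_right _ (List.mem_append_right _ (List.mem_singleton.mpr rfl))
  have key : ∀ (T : Fin (n + 1) → E) (hT0 : T ≠ 0), (∀ p ∈ L0, eval T p.2 = 0) → eval T G = 0 →
      (∀ p ∈ L0, ∀ i < p.1 - 1, eval R (pol p.2 p.1 T (i + 1)) = 0) →
      (∀ i < d - 2, eval R (pol G d T (i + 1)) = 0) → pt E T hT0 - pt E R hR0 ∈ Rat f := by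
    intro T hT0 hT hTG h1 h2
    apply lemC hS hL0 hd hG hb hT0 hR0 hT hTG _ hRG h2 hB
    intro p hp i hi
    rcases Nat.lt_or_ge i (p.1 - 1) with h | h
    · exact h1 p hp i h
    · have : i + 1 = p.1 := by omega
      rw [this, pol_top (hL0 p hp).2]
      exact hRF p hp
  have k1 : pt E P hP0 - pt E R hR0 ∈ Rat f := by
    apply key P hP0 hP hPG
    · intro p hp i hi
      apply hR (i + 1, _)
      apply List.mem_append_left
      exact List.mem_flatMap.mpr ⟨p, hp, List.mem_append_left _ (List.mem_append_left _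
        (mem_polL hi))⟩
    · intro i hi
      apply hR (i + 1, _)
      exact List.mem_append_right _ (List.mem_append_left _ (List.mem_append_left _ (mem_polL hi)))
  have k2 : pt E Q hQ0 - pt E R hR0 ∈ Rat f := by
    apply key Q hQ0 hQ hQG
    · intro p hp i hi
      apply hR (i + 1, _)
      apply List.mem_append_left
      exact List.mem_flatMap.mpr ⟨p, hp, List.mem_append_left _ (List.mem_append_right _
        (mem_polL hi))⟩
    · intro i hi
      apply hR (i + 1, _)
      exact List.mem_append_right _ (List.mem_append_left _ (List.mem_append_right _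
        (mem_polL hi)))
  have := (Rat f).sub_mem k1 k2
  rwa [sub_sub_sub_cancel_right] at this

end Pool.Agent.H13.RE
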