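import Pool.Agent.H13.RE.Systems

/-!
# Rational curves linking points
-/

set_option autoImplicit false

namespace Pool.Agent.H13.RE

open MvPolynomial

universe u

variable {k : Type u} [Field k] {N : ℕ}

/-- all forms of the list vanish at `x`, `x ≠ 0` -/
def IsPt (S : Sys k N) (x : Fin N → k) : Prop := x ≠ 0 ∧ ∀ p ∈ S, eval x p.2 = 0

/-- two vectors linked by a rational curve -/
def Link (S : Sys k N) (x y : Fin N → k) : Prop :=
  ∃ c : Fin N → Polynomial k, (∀ p ∈ S, aeval c p.2 = 0) ∧
    (∃ a : k, a ≠ 0 ∧ (fun j => (c j).eval 0) = a • x) ∧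
    (∃ b : k, b ≠ 0 ∧ (fun j => (c j).eval 1) = b • y)

/-- embed vectors -/
noncomputable def emb (x : Fin N → k) : Fin N → Polynomial k := fun j => Polynomial.C (x j)

lemma aeval_emb (x : Fin N → k) (f : MvPolynomial (Fin N) k) :
    aeval (emb x) f = Polynomial.C (eval x f) := by
  have := MvPolynomial.aeval_algebraMap_apply (R := k) (A := k) (Polynomial k) x f
  rw [aeval_eq_eval] at this
  exact this

lemma pol_zero_A {F : MvPolynomial (Fin N) k} {e : ℕ} (hF : F.IsHomogeneous e) (P : Fin N → k)
    (v : Fin N → Polynomial k) :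
    aeval v (pol F e P 0) = Polynomial.C (eval P F) := by
  have h := pol_spec hF P (Polynomial k) 1 0 v
  rw [Finset.sum_eq_single 0] at h
  · rw [← aeval_emb]
    simp only [one_pow, pow_zero, one_mul, zero_mul, add_zero] at h
    exact h.symm
  · intro i _ hi
    rw [zero_pow hi]
    ring
  · intro h0
    exact absurd (Finset.mem_range.mpr (Nat.succ_pos _)) h0

lemma pol_zero {F : MvPolynomial (Fin N) k} {e : ℕ} (hF : F.IsHomogeneous e) (P : Fin N → k)
    (v : Fin N → k) : eval v (pol F e P 0) = eval P F := by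
  have h := pol_zero_A hF P (emb v)
  rw [aeval_emb] at h
  exact Polynomial.C_injective h

lemma pol_top_A {F : MvPolynomial (Fin N) k} {e : ℕ} (hF : F.IsHomogeneous e) (P : Fin N → k)
    (v : Fin N → Polynomial k) : aeval v (pol F e P e) = aeval v F := by
  have h := pol_spec hF P (Polynomial k) 0 1 v
  rw [Finset.sum_eq_single e] at h
  · simp only [Nat.sub_self, pow_zero, one_pow, one_mul, zero_mul, zero_add] at h
    exact h.symm
  · intro i hi hi2
    rw [Finset.mem_range] at hi
    rw [zero_pow (by omega)]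
    ring
  · intro h0
    exact absurd (Finset.mem_range.mpr (Nat.lt_succ_self _)) h0

lemma pol_top {F : MvPolynomial (Fin N) k} {e : ℕ} (hF : F.IsHomogeneous e) (P : Fin N → k)
    (v : Fin N → k) : eval v (pol F e P e) = eval v F := by
  have h := pol_top_A hF P (emb v)
  rw [aeval_emb, aeval_emb] at h
  exact Polynomial.C_injective h

/-- a combination of a constant vector and another vector -/
noncomputable def comb (P : Fin N → k) (a b : Polynomial k) (v : Fin N → Polynomial k) :
    Fin N → Polynomial k :=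
  fun j => a * Polynomial.C (P j) + b * v j

lemma comb_spec {F : MvPolynomial (Fin N) k} {e : ℕ} (hF : F.IsHomogeneous e) (P : Fin N → k)
    (a b : Polynomial k) (v : Fin N → Polynomial k) :
    aeval (comb P a b v) F =
      ∑ i ∈ Finset.range (e + 1), a ^ (e - i) * b ^ i * aeval v (pol F e P i) :=
  pol_spec hF P (Polynomial k) a b v

/-- all polars vanish -/
lemma comb_all_zero {F : MvPolynomial (Fin N) k} {e : ℕ} (hF : F.IsHomogeneous e) {P : Fin N → k}
    (h0 : eval P F = 0) {v : Fin N → Polynomial k}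
    (h : ∀ i < e, aeval v (pol F e P (i + 1)) = 0) (a b : Polynomial k) :
    aeval (comb P a b v) F = 0 := by
  rw [comb_spec hF]
  apply Finset.sum_eq_zero
  intro i hi
  rw [Finset.mem_range] at hi
  rcases Nat.eq_zero_or_pos i with h1 | h1
  · subst h1
    rw [pol_zero_A hF, h0, map_zero, mul_zero]
  · have := h (i - 1) (by omega)
    rw [Nat.sub_add_cancel h1] at this
    rw [this, mul_zero]

/-- only the two highest polars survive -/
lemma comb_two {G : MvPolynomial (Fin N) k} {d : ℕ} (hd : 2 ≤ d) (hG : G.IsHomogeneous d)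
    {P : Fin N → k} (h0 : eval P G = 0) {v : Fin N → Polynomial k}
    (h : ∀ i < d - 2, aeval v (pol G d P (i + 1)) = 0) (a b : Polynomial k) :
    aeval (comb P a b v) G =
      a * b ^ (d - 1) * aeval v (pol G d P (d - 1)) + b ^ d * aeval v G := by
  rw [comb_spec hG, Finset.sum_range_succ]
  obtain ⟨c, rfl⟩ : ∃ c, d = c + 2 := ⟨d - 2, by omega⟩
  rw [Finset.sum_range_succ, Finset.sum_eq_zero, pol_top_A hG]
  · simp only [Nat.sub_self, pow_zero, one_mul, zero_add]
    rw [show c + 2 - (c + 1) = 1 by omega, show c + 2 - 1 = c + 1 by omega, pow_one]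
  · intro i hi
    rw [Finset.mem_range] at hi
    rcases Nat.eq_zero_or_pos i with h1 | h1
    · subst h1
      rw [pol_zero_A hG, h0, map_zero, mul_zero]
    · have := h (i - 1) (by omega)
      rw [Nat.sub_add_cancel h1] at this
      rw [this, mul_zero]

/-- extraction of the common power of `X` -/
lemma common_power : ∀ (n : ℕ) (h Γ : Polynomial k), h ≠ 0 → h.natDegree ≤ n →
    ∃ (j : ℕ) (h' Γ' : Polynomial k), h = Polynomial.X ^ j * h' ∧ Γ = Polynomial.X ^ j * Γ' ∧
      (h'.eval 0 ≠ 0 ∨ Γ'.eval 0 ≠ 0) := by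
  intro n
  induction n with
  | zero =>
    intro h Γ h0 hn
    refine ⟨0, h, Γ, by simp, by simp, Or.inl ?_⟩
    rw [Polynomial.eq_C_of_natDegree_le_zero hn] at h0 ⊢
    intro hcon
    rw [Polynomial.eval_C] at hcon
    rw [hcon, map_zero] at h0
    exact h0 rfl
  | succ n ih =>
    intro h Γ h0 hn
    by_cases hh : h.eval 0 ≠ 0 ∨ Γ.eval 0 ≠ 0
    · exact ⟨0, h, Γ, by simp, by simp, hh⟩
    · push Not at hh
      obtain ⟨h1, h2⟩ := hh
      obtain ⟨u, hu⟩ : Polynomial.X ∣ h := by
        rw [Polynomial.X_dvd_iff, Polynomial.coeff_zero_eq_eval_zero]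
        exact h1
      obtain ⟨w, hw⟩ : Polynomial.X ∣ Γ := by
        rw [Polynomial.X_dvd_iff, Polynomial.coeff_zero_eq_eval_zero]
        exact h2
      have hu0 : u ≠ 0 := by
        rintro rfl
        rw [mul_zero] at hu
        exact h0 hu
      have hud : u.natDegree ≤ n := by
        rw [hu, Polynomial.natDegree_X_mul hu0] at hn
        omega
      obtain ⟨j, h', Γ', e1, e2, e3⟩ := ih u w hu0 hud
      refine ⟨j + 1, h', Γ', ?_, ?_, e3⟩
      · rw [hu, e1]; ring
      · rw [hw, e2]; ring

end Pool.Agent.H13.RE
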