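import Mathlib

/-!
# Polars of a homogeneous polynomial

For `F` homogeneous of degree `d` and a vector `P` we have
`F (a P + b v) = ∑ a ^ (d - i) b ^ i f_i (v)` with `f_i` homogeneous of degree `i`.
-/

set_option autoImplicit false

namespace Pool.Agent.H13.RE

open MvPolynomial

universe u

variable {k : Type u} [Field k] {N : ℕ}

/-- the expansion of `F` at `P` exists -/
def Ex (P : Fin N → k) (F : MvPolynomial (Fin N) k) (d : ℕ) : Prop :=
  ∃ f : ℕ → MvPolynomial (Fin N) k, (∀ i, (f i).IsHomogeneous i) ∧ (∀ i, d < i → f i = 0) ∧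
    ∀ (A : Type u) [CommRing A] [Algebra k A] (a b : A) (v : Fin N → A),
      aeval (fun j => a * algebraMap k A (P j) + b * v j) F =
        ∑ i ∈ Finset.range (d + 1), a ^ (d - i) * b ^ i * aeval v (f i)

lemma ex_zero (P : Fin N → k) (d : ℕ) : Ex P 0 d :=
  ⟨fun _ => 0, fun i => isHomogeneous_zero _ _ i, fun _ _ => rfl, by intros; simp⟩

lemma ex_add {P : Fin N → k} {F G : MvPolynomial (Fin N) k} {d : ℕ} (hF : Ex P F d)
    (hG : Ex P G d) : Ex P (F + G) d := by
  obtain ⟨f, f1, f2, f3⟩ := hF
  obtain ⟨g, g1, g2, g3⟩ := hG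
  refine ⟨fun i => f i + g i, fun i => (f1 i).add (g1 i), fun i hi => ?_, ?_⟩
  · show f i + g i = 0
    rw [f2 i hi, g2 i hi, add_zero]
  · intro A _ _ a b v
    rw [map_add, f3 A a b v, g3 A a b v, ← Finset.sum_add_distrib]
    refine Finset.sum_congr rfl fun i _ => ?_
    rw [map_add]
    ring

lemma ex_X_mul {P : Fin N → k} {F : MvPolynomial (Fin N) k} {d : ℕ} (hF : Ex P F d) (j : Fin N) :
    Ex P (X j * F) (d + 1) := by
  obtain ⟨f, f1, f2, f3⟩ := hF
  refine ⟨fun i => C (P j) * f i + X j * (if i = 0 then 0 else f (i - 1)), ?_, ?_, ?_⟩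
  · intro i
    apply IsHomogeneous.add
    · have := (isHomogeneous_C (Fin N) (P j)).mul (f1 i)
      rwa [zero_add] at this
    · split_ifs with hi
      · rw [mul_zero]
        exact isHomogeneous_zero _ _ i
      · have := (isHomogeneous_X k j).mul (f1 (i - 1))
        rwa [show 1 + (i - 1) = i by omega] at this
  · intro i hi
    show C (P j) * f i + X j * (if i = 0 then 0 else f (i - 1)) = 0
    rw [f2 i (by omega), if_neg (by omega), f2 (i - 1) (by omega)]
    simp
  · intro A _ _ a b v
    rw [map_mul, aeval_X, f3 A a b v]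
    have e1 : ∀ i, aeval v (C (P j) * f i + X j * (if i = 0 then 0 else f (i - 1))) =
        algebraMap k A (P j) * aeval v (f i) +
          v j * (if i = 0 then 0 else aeval v (f (i - 1))) := by
      intro i
      rw [map_add, map_mul, map_mul, aeval_X, aeval_C]
      split_ifs
      · rw [map_zero]
      · rfl
    simp only [e1, mul_add, Finset.sum_add_distrib]
    rw [add_mul]
    congr 1
    · rw [Finset.sum_range_succ _ (d + 1), f2 (d + 1) (by omega), map_zero, mul_zero, mul_zero,
        add_zero, Finset.mul_sum]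
      refine Finset.sum_congr rfl fun i hi => ?_
      rw [Finset.mem_range] at hi
      rw [show d + 1 - i = d - i + 1 by omega]
      ring
    · rw [Finset.sum_range_succ' _ (d + 1)]
      simp only [if_true, mul_zero, add_zero]
      rw [Finset.mul_sum]
      refine Finset.sum_congr rfl fun i hi => ?_
      rw [if_neg (by omega), show d + 1 - (i + 1) = d - i by omega, Nat.add_sub_cancel]
      ring

lemma ex_C (P : Fin N → k) (c : k) : Ex P (C c) 0 := by
  refine ⟨fun i => if i = 0 then C c else 0, ?_, ?_, ?_⟩
  · intro i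
    show (if i = 0 then C c else (0 : MvPolynomial (Fin N) k)).IsHomogeneous i
    split_ifs with hi
    · rw [hi]
      exact isHomogeneous_C _ _
    · exact isHomogeneous_zero _ _ i
  · intro i hi
    show (if i = 0 then C c else (0 : MvPolynomial (Fin N) k)) = 0
    rw [if_neg (by omega)]
  · intro A _ _ a b v
    simp

lemma ex_monomial (P : Fin N → k) (c : k) : ∀ (d : ℕ) (m : Fin N →₀ ℕ), m.degree = d →
    Ex P (monomial m c) d := by
  intro d
  induction d with
  | zero =>
    intro m hm
    rw [Finsupp.degree_eq_zero_iff] at hm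
    rw [hm]
    exact ex_C P c
  | succ d ih =>
    intro m hm
    have : ∃ j, m j ≠ 0 := by
      by_contra hcon
      push Not at hcon
      have : m = 0 := Finsupp.ext hcon
      rw [this, map_zero] at hm
      omega
    obtain ⟨j, hj⟩ := this
    have h1 : Finsupp.single j 1 + (m - Finsupp.single j 1) = m := by
      apply add_tsub_cancel_of_le
      rw [Finsupp.single_le_iff]
      omega
    have h2 : (m - Finsupp.single j 1).degree = d := by
      have := congrArg Finsupp.degree h1
      rw [map_add, Finsupp.degree_single] at this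
      omega
    have h3 : (monomial m c : MvPolynomial (Fin N) k) =
        X j * monomial (m - Finsupp.single j 1) c := by
      rw [X, monomial_mul, one_mul, h1]
    rw [h3]
    exact ex_X_mul (ih _ h2) j

theorem exists_polar (F : MvPolynomial (Fin N) k) (d : ℕ) (hF : F.IsHomogeneous d)
    (P : Fin N → k) : Ex P F d := by
  rw [F.as_sum]
  apply Finset.sum_induction _ (fun G => Ex P G d) (fun _ _ => ex_add) (ex_zero P d)
  intro m hm
  apply ex_monomial
  rw [mem_support_iff] at hm
  have := hF hm
  rw [← this]
  rw [Finsupp.degree_eq_weight_one]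
  rfl

/-- the polars of `F` at `P` -/
noncomputable def pol (F : MvPolynomial (Fin N) k) (d : ℕ) (P : Fin N → k) (i : ℕ) :
    MvPolynomial (Fin N) k := by
  classical
  exact if h : F.IsHomogeneous d then (exists_polar F d h P).choose i else 0

lemma pol_hom {F : MvPolynomial (Fin N) k} {d : ℕ} (hF : F.IsHomogeneous d) (P : Fin N → k)
    (i : ℕ) : (pol F d P i).IsHomogeneous i := by
  unfold pol
  rw [dif_pos hF]
  exact (exists_polar F d hF P).choose_spec.1 i

lemma pol_spec {F : MvPolynomial (Fin N) k} {d : ℕ} (hF : F.IsHomogeneous d) (P : Fin N → k)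
    (A : Type u) [CommRing A] [Algebra k A] (a b : A) (v : Fin N → A) :
    aeval (fun j => a * algebraMap k A (P j) + b * v j) F =
      ∑ i ∈ Finset.range (d + 1), a ^ (d - i) * b ^ i * aeval v (pol F d P i) := by
  unfold pol
  simp only [dif_pos hF]
  exact (exists_polar F d hF P).choose_spec.2.2 A a b v

lemma pol_spec' {F : MvPolynomial (Fin N) k} {d : ℕ} (hF : F.IsHomogeneous d) (P : Fin N → k)
    (a b : k) (v : Fin N → k) :
    eval (a • P + b • v) F =
      ∑ i ∈ Finset.range (d + 1), a ^ (d - i) * b ^ i * eval v (pol F d P i) := by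
  have h := pol_spec hF P k a b v
  have e : a • P + b • v = fun j => a * P j + b * v j := rfl
  rw [e]
  simpa [aeval_eq_eval] using h

end Pool.Agent.H13.RE
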