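import Pool.Agent.H13.RE.Polar

/-!
# Systems of forms: lists of polars and their cost
-/

set_option autoImplicit false

namespace Pool.Agent.H13.RE

open MvPolynomial

universe u

/-- The `C₁` property for systems of forms. -/
def C1Sys (k : Type u) [Field k] : Prop :=
  ∀ (N r : ℕ) (d : Fin r → ℕ) (f : Fin r → MvPolynomial (Fin N) k),
    (∀ i, 1 ≤ d i) → (∀ i, (f i).IsHomogeneous (d i)) → ∑ i, d i < N →
    ∃ x : Fin N → k, x ≠ 0 ∧ ∀ i, eval x (f i) = 0

variable {k : Type u} [Field k] {N : ℕ}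

/-- a list of forms with their degrees -/
abbrev Sys (k : Type u) [Field k] (N : ℕ) := List (ℕ × MvPolynomial (Fin N) k)

/-- positive degrees -/
def Ok (L : Sys k N) : Prop := ∀ p ∈ L, 1 ≤ p.1 ∧ p.2.IsHomogeneous p.1

/-- sum of the degrees -/
def cost (L : Sys k N) : ℕ := (L.map Prod.fst).sum

lemma cost_append (L M : Sys k N) : cost (L ++ M) = cost L + cost M := by
  simp [cost]

lemma cost_singleton (p : ℕ × MvPolynomial (Fin N) k) : cost [p] = p.1 := by
  simp [cost]

lemma cost_flatMap {α : Type*} (L : List α) (g : α → Sys k N) :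
    cost (L.flatMap g) = (L.map (fun a => cost (g a))).sum := by
  induction L with
  | nil => simp [cost]
  | cons a L ih => rw [List.flatMap_cons, cost_append, ih, List.map_cons, List.sum_cons]

lemma ok_append {L M : Sys k N} (hL : Ok L) (hM : Ok M) : Ok (L ++ M) := by
  intro p hp
  rcases List.mem_append.mp hp with h | h
  · exact hL p h
  · exact hM p h

lemma ok_singleton {p : ℕ × MvPolynomial (Fin N) k} (h1 : 1 ≤ p.1) (h2 : p.2.IsHomogeneous p.1) :
    Ok [p] := by
  intro q hq
  rw [List.mem_singleton] at hq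
  rw [hq]
  exact ⟨h1, h2⟩

lemma ok_flatMap {α : Type*} {L : List α} {g : α → Sys k N} (h : ∀ a ∈ L, Ok (g a)) :
    Ok (L.flatMap g) := by
  intro p hp
  obtain ⟨a, ha, hpa⟩ := List.mem_flatMap.mp hp
  exact h a ha p hpa

lemma C1Sys.list (h : C1Sys k) (L : Sys k N) (hL : Ok L) (hc : cost L < N) :
    ∃ x : Fin N → k, x ≠ 0 ∧ ∀ p ∈ L, eval x p.2 = 0 := by
  obtain ⟨x, hx, hx2⟩ := h N L.length (fun i => (L.get i).1) (fun i => (L.get i).2)
    (fun i => (hL _ (List.get_mem L i)).1) (fun i => (hL _ (List.get_mem L i)).2) (by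
      refine lt_of_eq_of_lt ?_ hc
      unfold cost
      rw [← List.sum_ofFn]
      congr 1
      apply List.ext_get
      · simp
      · intro i h1 h2
        simp)
  refine ⟨x, hx, fun p hp => ?_⟩
  obtain ⟨i, hi⟩ := List.get_of_mem hp
  rw [← hi]
  exact hx2 i

/-- the first `m` polars at `P` -/
noncomputable def polL (F : MvPolynomial (Fin N) k) (e : ℕ) (P : Fin N → k) (m : ℕ) : Sys k N :=
  (List.range m).map (fun i => (i + 1, pol F e P (i + 1)))

lemma mem_polL {F : MvPolynomial (Fin N) k} {e : ℕ} {P : Fin N → k} {m i : ℕ} (hi : i < m) :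
    (i + 1, pol F e P (i + 1)) ∈ polL F e P m :=
  List.mem_map.mpr ⟨i, List.mem_range.mpr hi, rfl⟩

lemma ok_polL {F : MvPolynomial (Fin N) k} {e : ℕ} (hF : F.IsHomogeneous e) (P : Fin N → k)
    (m : ℕ) : Ok (polL F e P m) := by
  intro p hp
  obtain ⟨i, _, rfl⟩ := List.mem_map.mp hp
  exact ⟨by omega, pol_hom hF P (i + 1)⟩

lemma cost_polL (F : MvPolynomial (Fin N) k) (e : ℕ) (P : Fin N → k) (m : ℕ) :
    cost (polL F e P m) = (m + 1).choose 2 := by
  unfold cost polL
  induction m with
  | zero => simp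
  | succ m ih =>
    rw [List.range_succ, List.map_append, List.map_append, List.sum_append, ih]
    have : (m + 1 + 1).choose 2 = (m + 1).choose 1 + (m + 1).choose 2 := Nat.choose_succ_succ _ _
    rw [this, Nat.choose_one_right]
    simp
    omega

/-- polars at `R` of the first `m` polars at `P` -/
noncomputable def polpolL (F : MvPolynomial (Fin N) k) (e : ℕ) (P R : Fin N → k) (m : ℕ) :
    Sys k N :=
  (List.range m).flatMap (fun i => polL (pol F e P (i + 1)) (i + 1) R (i + 1))

lemma mem_polpolL {F : MvPolynomial (Fin N) k} {e : ℕ} {P R : Fin N → k} {m i l : ℕ} (hi : i < m)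
    (hl : l < i + 1) :
    (l + 1, pol (pol F e P (i + 1)) (i + 1) R (l + 1)) ∈ polpolL F e P R m :=
  List.mem_flatMap.mpr ⟨i, List.mem_range.mpr hi, mem_polL hl⟩

lemma ok_polpolL {F : MvPolynomial (Fin N) k} {e : ℕ} (hF : F.IsHomogeneous e) (P R : Fin N → k)
    (m : ℕ) : Ok (polpolL F e P R m) :=
  ok_flatMap fun i _ => ok_polL (pol_hom hF P (i + 1)) R (i + 1)

lemma cost_polpolL (F : MvPolynomial (Fin N) k) (e : ℕ) (P R : Fin N → k) (m : ℕ) :
    cost (polpolL F e P R m) = (m + 2).choose 3 := by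
  unfold polpolL
  rw [cost_flatMap]
  simp only [cost_polL]
  induction m with
  | zero => simp
  | succ m ih =>
    rw [List.range_succ, List.map_append, List.sum_append, ih]
    have : (m + 1 + 2).choose 3 = (m + 2).choose 2 + (m + 2).choose 3 := by
      rw [show m + 1 + 2 = (m + 2) + 1 by ring]
      exact Nat.choose_succ_succ _ _
    rw [this]
    simp only [List.map_cons, List.map_nil, List.sum_cons, List.sum_nil, add_zero]
    exact Nat.add_comm _ _

end Pool.Agent.H13.RE
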